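import Pool.Agent.Q163.BC.Poly
import Pool.Agent.Cov.PNT

/-! Sets of base points: the integers and the primes in residue classes. -/

set_option autoImplicit false

namespace Pool.Agent.Q163.BC

open Finset Filter Topology Polynomial MeasureTheory ProbabilityTheory Pool.Agent.Q163.RP
  Pool.Agent.Q163.RX

lemma count_int (D k N : ℕ) (hD : 0 < D) :
    (N : ℝ) / D - 1 ≤ ((range N).filter fun m => m ≡ k [MOD D]).card := by
  have h1 := Nat.count_modEq_card N hD k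
  rw [Nat.count_eq_card_filter_range] at h1
  have h2 : N / D ≤ ((range N).filter fun m => m ≡ k [MOD D]).card := by
    rw [h1]
    exact Nat.le_add_right _ _
  have h3 : (N : ℝ) / D - 1 ≤ ((N / D : ℕ) : ℝ) := by
    have h4 : N < D * (N / D + 1) := Nat.lt_mul_div_succ N hD
    have hDr : (0 : ℝ) < D := by exact_mod_cast hD
    have h5 : (N : ℝ) < D * (((N / D : ℕ) : ℝ) + 1) := by exact_mod_cast h4
    rw [sub_le_iff_le_add, div_le_iff₀ hDr]
    linarith
  exact h3.trans (by exact_mod_cast h2)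

/-- primes in residue classes -/
theorem primes_ap (D k : ℕ) (hD : 0 < D) (hk : Nat.Coprime k D) :
    ∀ᶠ N : ℕ in atTop, 1 / (4 * D) * ((N : ℝ) / Real.log N) ≤
      ((range N).filter fun m => m.Prime ∧ m ≡ k [MOD D]).card := by
  classical
  have : NeZero D := ⟨hD.ne'⟩
  have hDr : (0 : ℝ) < D := by exact_mod_cast hD
  have hu : IsUnit (k : ZMod D) := (ZMod.isUnit_iff_coprime k D).2 hk
  have hx : Tendsto (fun N : ℕ => ((N - 1 : ℕ) : ℝ)) atTop atTop :=
    tendsto_natCast_atTop_atTop.comp (tendsto_sub_atTop_nat 1)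
  have h1 := (Pool.Agent.Cov.PNT.pnt_residueClass hu).comp hx
  have h2 := (Pool.Agent.Cov.PNT.psi_div_tendsto.sub Pool.Agent.Cov.PNT.theta_div_tendsto).comp hx
  rw [sub_self] at h2
  have hφ : (D : ℝ)⁻¹ ≤ ((D.totient : ℕ) : ℝ)⁻¹ := by
    have h3 : 0 < D.totient := Nat.totient_pos.2 hD
    have h4 : (0 : ℝ) < D.totient := by exact_mod_cast h3
    exact inv_anti₀ h4 (by exact_mod_cast Nat.totient_le D)
  have e1 : 7 / (8 * (D : ℝ)) < ((D.totient : ℕ) : ℝ)⁻¹ := by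
    refine lt_of_lt_of_le ?_ hφ
    rw [inv_eq_one_div, div_lt_div_iff₀ (by positivity) hDr]
    nlinarith
  have e2 : (0 : ℝ) < 1 / (8 * (D : ℝ)) := by positivity
  filter_upwards [h1.eventually (lt_mem_nhds e1), h2.eventually (gt_mem_nhds e2),
    eventually_ge_atTop 3] with N g1 g2 hN
  simp only [Function.comp, Nat.floor_natCast] at g1 g2
  have hN1 : (0 : ℝ) < ((N - 1 : ℕ) : ℝ) := by exact_mod_cast (by omega : 0 < N - 1)
  have hNr : ((N - 1 : ℕ) : ℝ) = N - 1 := by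
    rw [Nat.cast_sub (by omega), Nat.cast_one]
  have hN3 : (3 : ℝ) ≤ N := by exact_mod_cast hN
  rw [lt_div_iff₀ hN1] at g1
  rw [← sub_div, div_lt_iff₀ hN1] at g2
  unfold Chebyshev.psi Chebyshev.theta at g2
  rw [Nat.floor_natCast] at g2
  -- comparison of the sums
  have hI : Finset.Icc 1 (N - 1) = Finset.Ioc 0 (N - 1) := rfl
  rw [hI] at g1
  have h3 : ∑ m ∈ Finset.Ioc 0 (N - 1), ArithmeticFunction.vonMangoldt.residueClass (k : ZMod D) m ≤
      ∑ m ∈ Finset.Ioc 0 (N - 1), (if m.Prime ∧ m ≡ k [MOD D] then Real.log m else 0) +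
      (∑ m ∈ Finset.Ioc 0 (N - 1), ArithmeticFunction.vonMangoldt m -
        ∑ m ∈ (Finset.Ioc 0 (N - 1)).filter Nat.Prime, Real.log m) := by
    rw [Finset.sum_filter, ← Finset.sum_sub_distrib, ← Finset.sum_add_distrib]
    refine Finset.sum_le_sum fun m _ => ?_
    have hcl : ((m : ZMod D) = (k : ZMod D)) ↔ m ≡ k [MOD D] := ZMod.natCast_eq_natCast_iff m k D
    unfold ArithmeticFunction.vonMangoldt.residueClass
    rw [Set.indicator_apply]
    simp only [Set.mem_ofPred_eq, hcl]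
    have hnn := ArithmeticFunction.vonMangoldt_nonneg (n := m)
    by_cases hp : m.Prime
    · have h4 := ArithmeticFunction.vonMangoldt_apply_prime hp
      have hl : 0 ≤ Real.log m := Real.log_natCast_nonneg m
      by_cases hm : m ≡ k [MOD D]
      · rw [if_pos hm, if_pos ⟨hp, hm⟩, if_pos hp, h4]
        linarith
      · rw [if_neg hm, if_neg (fun h => hm h.2), if_pos hp, h4]
        linarith
    · rw [if_neg (fun h : m.Prime ∧ m ≡ k [MOD D] => hp h.1), if_neg hp]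
      split_ifs <;> linarith
  have h4 : ∑ m ∈ Finset.Ioc 0 (N - 1), (if m.Prime ∧ m ≡ k [MOD D] then Real.log m else 0) ≤
      Real.log N * ((range N).filter fun m => m.Prime ∧ m ≡ k [MOD D]).card := by
    rw [← Finset.sum_filter]
    have h5 : ∑ m ∈ (Finset.Ioc 0 (N - 1)).filter (fun m => m.Prime ∧ m ≡ k [MOD D]),
        Real.log (m : ℝ) ≤ ∑ _m ∈ (Finset.Ioc 0 (N - 1)).filter
          (fun m => m.Prime ∧ m ≡ k [MOD D]), Real.log N := by
      refine Finset.sum_le_sum fun m hm => ?_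
      rw [mem_filter, mem_Ioc] at hm
      refine Real.log_le_log (by exact_mod_cast hm.1.1) ?_
      exact_mod_cast (by omega : m ≤ N)
    refine h5.trans ?_
    rw [Finset.sum_const, nsmul_eq_mul, mul_comm]
    have h6 : ((Finset.Ioc 0 (N - 1)).filter (fun m => m.Prime ∧ m ≡ k [MOD D])).card ≤
        ((range N).filter fun m => m.Prime ∧ m ≡ k [MOD D]).card := by
      refine card_le_card fun m hm => ?_
      rw [mem_filter, mem_Ioc] at hm
      rw [mem_filter, mem_range]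
      exact ⟨by omega, hm.2⟩
    exact mul_le_mul_of_nonneg_left (by exact_mod_cast h6) (Real.log_natCast_nonneg N)
  have hlog : 0 < Real.log N := Real.log_pos (by linarith)
  have h7 : 3 / (4 * (D : ℝ)) * (N - 1) ≤
      Real.log N * ((range N).filter fun m => m.Prime ∧ m ≡ k [MOD D]).card := by
    rw [hNr] at g1 g2
    have h8 : 3 / (4 * (D : ℝ)) * (N - 1) = 7 / (8 * (D : ℝ)) * (N - 1) - 1 / (8 * (D : ℝ)) * (N - 1) := by
      field_simp
      ring
    rw [h8]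
    linarith
  have h8 : 1 / (4 * (D : ℝ)) * N ≤ 3 / (4 * (D : ℝ)) * (N - 1) := by
    rw [div_mul_eq_mul_div, div_mul_eq_mul_div]
    gcongr ?_ / _
    linarith
  rw [← mul_div_assoc, div_le_iff₀ hlog]
  rw [mul_comm ((((range N).filter fun m => m.Prime ∧ m ≡ k [MOD D]).card : ℕ) : ℝ)]
  exact h8.trans h7

/-- the primes of `P` modulo which `F` has a root -/
def rootPrimes (P : Set ℕ) (F : ℤ[X]) : Set ℕ :=
  {p | p ∈ P ∧ p.Prime ∧ ∃ x : ℤ, (p : ℤ) ∣ F.eval x}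

/-- the table of primes for polynomials -/
theorem table (P : Set ℕ) {n : ℕ} (F H : Fin n → ℤ[X])
    (hsep : ∀ i, ((F i).map (Int.castRingHom ℚ)).Separable)
    (hcop : ∀ i j, i ≠ j → IsCoprime ((F i).map (Int.castRingHom ℚ)) ((F j).map (Int.castRingHom ℚ)))
    (hH : ∀ i, H i ≠ 0)
    (hFH : ∀ i j, IsCoprime ((F i).map (Int.castRingHom ℚ)) ((H j).map (Int.castRingHom ℚ)))
    (hP : ∀ j, (rootPrimes P (F j)).Infinite) (Q a : ℕ) (hQ : 0 < Q) (T : ℕ) :
    ∃ q : Fin T × Fin n × Fin (5 * n) → ℕ, (∀ b, q b ∈ P) ∧ ∃ D : ℕ, 0 < D ∧ Q ∣ D ∧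
      ∃ k : Fin T → (Fin n → Fin (5 * n)) → ℕ, (∀ t c m, m ≡ k t c [MOD D] → m ≡ a [MOD Q] ∧
        Fit q (LF F H) t c m) ∧
      ((∀ j, (F j).eval 0 ≠ 0) → Nat.Coprime a Q → ∀ t c, Nat.Coprime (k t c) D) := by
  obtain ⟨r0, hr0⟩ := eventually_atTop.1 ((local_data F H hsep hcop hH hFH).and (eventually_gt_atTop Q))
  have hinf : ∀ b : Fin T × Fin n × Fin (5 * n), (rootPrimes P (F b.2.1) \ Set.Iio r0).Infinite :=
    fun b => (hP b.2.1).sdiff (Set.finite_Iio r0)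
  obtain ⟨q, hq1, hq2⟩ := inj_choice _ hinf univ
  have hq3 : ∀ b, q b ∈ P ∧ (q b).Prime ∧ (∃ x : ℤ, ((q b : ℕ) : ℤ) ∣ (F b.2.1).eval x) ∧ r0 ≤ q b := by
    intro b
    obtain ⟨⟨h1, h2, h3⟩, h4⟩ := hq1 b (mem_univ b)
    exact ⟨h1, h2, h3, not_lt.1 h4⟩
  obtain ⟨D, hD, hQD, h1⟩ := classes F H q (fun b b' h => hq2 (mem_coe.2 (mem_univ _)) (mem_coe.2 (mem_univ _)) h)
    (fun b => (hq3 b).2.1) (fun b => ((hr0 (q b) (hq3 b).2.2.2).1 (hq3 b).2.1).1)
    (fun t j k => ((hr0 (q (t, j, k)) (hq3 _).2.2.2).1 (hq3 _).2.1).2 j (hq3 (t, j, k)).2.2.1)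
    Q a hQ (fun b => (hr0 (q b) (hq3 b).2.2.2).2)
  choose k hk using h1
  exact ⟨q, fun b => (hq3 b).1, D, hD, hQD, k, fun t c m hm => (hk t c).1 m hm,
    fun h0 ha t c => (hk t c).2 h0 ha⟩

/-- **Polynomials at integers.** -/
theorem poly_int (P : Set ℕ) {n : ℕ} (hn : 1 ≤ n) (F H : Fin n → ℤ[X])
    (hsep : ∀ i, ((F i).map (Int.castRingHom ℚ)).Separable)
    (hcop : ∀ i j, i ≠ j → IsCoprime ((F i).map (Int.castRingHom ℚ)) ((F j).map (Int.castRingHom ℚ)))
    (hH : ∀ i, H i ≠ 0)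
    (hFH : ∀ i j, IsCoprime ((F i).map (Int.castRingHom ℚ)) ((H j).map (Int.castRingHom ℚ)))
    (hP : ∀ j, (rootPrimes P (F j)).Infinite) (G : Fin n → ℕ → ℝ)
    (hG : ∀ j m, G j m = 1 ∨ G j m = -1) (Q a : ℕ) (hQ : 0 < Q) (w : Fin n → Bool) :
    ∀ᵐ ω ∂cm, PosW (fun N => N) fun m => m ≡ a [MOD Q] ∧ Hits P G (LF F H) w ω m := by
  classical
  refine density2 P hn G hG (LF F H) (fun N => N) (fun m => m ≡ a [MOD Q]) (fun T => ?_) w
  obtain ⟨q, hqP, D, hD, hQD, k, hk, _⟩ := table P F H hsep hcop hH hFH hP Q a hQ T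
  refine ⟨q, hqP, fun t c m => m ≡ k t c [MOD D], fun t c m hm => (hk t c m hm).2,
    1 / (2 * D), by positivity, fun t c => ?_⟩
  filter_upwards [eventually_ge_atTop (2 * D)] with N hN
  have h1 := count_int D (k t c) N hD
  have h2 : ((range N).filter fun m => m ≡ k t c [MOD D]).card ≤
      ((range N).filter fun m => m ≡ a [MOD Q] ∧ m ≡ k t c [MOD D]).card := by
    refine card_le_card fun m hm => ?_
    rw [mem_filter] at hm ⊢
    exact ⟨hm.1, (hk t c m hm.2).1, hm.2⟩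
  have hDr : (0 : ℝ) < D := by exact_mod_cast hD
  have hNr : (2 * D : ℝ) ≤ N := by exact_mod_cast hN
  have h3 : 1 / (2 * (D : ℝ)) * N ≤ N / D - 1 := by
    rw [le_sub_iff_add_le, div_mul_eq_mul_div, one_mul, div_add_one (by positivity),
      div_le_div_iff₀ (by positivity) hDr]
    nlinarith
  have h4 : 1 / (2 * (D : ℝ)) * N ≤
      (((range N).filter fun m => m ≡ a [MOD Q] ∧ m ≡ k t c [MOD D]).card : ℝ) :=
    h3.trans (h1.trans (by exact_mod_cast h2))
  refine h4.trans (le_of_eq ?_)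
  congr

/-- **Polynomials at primes.** -/
theorem poly_prime (P : Set ℕ) {n : ℕ} (hn : 1 ≤ n) (F H : Fin n → ℤ[X])
    (hsep : ∀ i, ((F i).map (Int.castRingHom ℚ)).Separable)
    (hcop : ∀ i j, i ≠ j → IsCoprime ((F i).map (Int.castRingHom ℚ)) ((F j).map (Int.castRingHom ℚ)))
    (hH : ∀ i, H i ≠ 0)
    (hFH : ∀ i j, IsCoprime ((F i).map (Int.castRingHom ℚ)) ((H j).map (Int.castRingHom ℚ)))
    (h0 : ∀ j, (F j).eval 0 ≠ 0)
    (hP : ∀ j, (rootPrimes P (F j)).Infinite) (G : Fin n → ℕ → ℝ)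
    (hG : ∀ j m, G j m = 1 ∨ G j m = -1) (Q a : ℕ) (hQ : 0 < Q) (ha : Nat.Coprime a Q)
    (w : Fin n → Bool) :
    ∀ᵐ ω ∂cm, PosW (fun N => N / Real.log N) fun m => (m.Prime ∧ m ≡ a [MOD Q]) ∧
      Hits P G (LF F H) w ω m := by
  classical
  refine density2 P hn G hG (LF F H) (fun N => N / Real.log N) (fun m => m.Prime ∧ m ≡ a [MOD Q])
    (fun T => ?_) w
  obtain ⟨q, hqP, D, hD, hQD, k, hk, hk2⟩ := table P F H hsep hcop hH hFH hP Q a hQ T
  refine ⟨q, hqP, fun t c m => m ≡ k t c [MOD D], fun t c m hm => (hk t c m hm).2,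
    1 / (4 * D), by positivity, fun t c => ?_⟩
  filter_upwards [primes_ap D (k t c) hD (hk2 h0 ha t c)] with N hN
  have h2 : ((range N).filter fun m => m.Prime ∧ m ≡ k t c [MOD D]).card ≤
      ((range N).filter fun m => (m.Prime ∧ m ≡ a [MOD Q]) ∧ m ≡ k t c [MOD D]).card := by
    refine card_le_card fun m hm => ?_
    rw [mem_filter] at hm ⊢
    exact ⟨hm.1, ⟨hm.2.1, (hk t c m hm.2.2).1⟩, hm.2.2⟩
  have h4 : 1 / (4 * (D : ℝ)) * (N / Real.log N) ≤
      (((range N).filter fun m => (m.Prime ∧ m ≡ a [MOD Q]) ∧ m ≡ k t c [MOD D]).card : ℝ) :=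
    hN.trans (by exact_mod_cast h2)
  refine h4.trans (le_of_eq ?_)
  congr

end Pool.Agent.Q163.BC
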