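import Pool.Agent.Q163.BC.Base

/-! Algebra of integer polynomials: odd factors, shifts, prime divisors of the values. -/

set_option autoImplicit false

namespace Pool.Agent.Q163.BC

open Finset Filter Topology Polynomial

lemma countable_poly : Countable ℤ[X] := by
  have h1 : Function.Injective fun f : ℤ[X] =>
      (⟨f.support.sup id, fun i => f.coeff i⟩ : Σ n : ℕ, (Fin (n + 1) → ℤ)) := by
    intro f g hfg
    simp only [Sigma.mk.injEq] at hfg
    obtain ⟨h2, h3⟩ := hfg
    ext i
    have key : ∀ (a b : ℕ) (h : a = b) (u : Fin (a + 1) → ℤ) (v : Fin (b + 1) → ℤ), HEq u v →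
        ∀ i (hi : i < a + 1) (hi' : i < b + 1), u ⟨i, hi⟩ = v ⟨i, hi'⟩ := by
      intro a b h u v huv i hi hi'
      subst h
      rw [eq_of_heq huv]
    by_cases hi : i < f.support.sup id + 1
    · exact key _ _ h2 _ _ h3 i hi (h2 ▸ hi)
    · have e1 : f.coeff i = 0 := by
        by_contra hne
        have := Finset.le_sup (f := id) (mem_support_iff.2 hne)
        simp only [id] at this
        omega
      have e2 : g.coeff i = 0 := by
        by_contra hne
        have := Finset.le_sup (f := id) (mem_support_iff.2 hne)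
        simp only [id] at this
        omega
      rw [e1, e2]
  exact h1.countable

/-- an irreducible factor of positive degree -/
lemma exists_factor (f : ℤ[X]) (hf : 0 < f.natDegree) :
    ∃ g : ℤ[X], Irreducible g ∧ 0 < g.natDegree ∧ g ∣ f := by
  have h0 : f ≠ 0 := fun h => by rw [h, natDegree_zero] at hf; omega
  have hp := f.isPrimitive_primPart
  have hd : 0 < f.primPart.natDegree := by rwa [natDegree_primPart]
  have hp0 : f.primPart ≠ 0 := primPart_ne_zero f
  obtain ⟨g, hg1, hg2⟩ := WfDvdMonoid.exists_irreducible_factor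
    (fun h => by rw [natDegree_eq_zero_of_isUnit h] at hd; omega) hp0
  refine ⟨g, hg1, ?_, hg2.trans (Dvd.intro_left _ (f.eq_C_content_mul_primPart).symm)⟩
  by_contra hcon
  have h1 : g.natDegree = 0 := by omega
  rw [eq_C_of_natDegree_eq_zero h1] at hg1 hg2
  exact hg1.not_isUnit ((hp _ hg2).map C)

/-- a polynomial is a constant times a square or has an irreducible factor of odd multiplicity -/
theorem odd_or_square (f : ℤ[X]) : (∃ (c : ℤ) (g : ℤ[X]), f = C c * g ^ 2) ∨
    ∃ (F : ℤ[X]) (e : ℕ) (H : ℤ[X]), Irreducible F ∧ 0 < F.natDegree ∧ ¬ F ∣ H ∧ H ≠ 0 ∧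
      f = F ^ (2 * e + 1) * H := by
  induction hn : f.natDegree using Nat.strong_induction_on generalizing f with
  | _ n ih =>
    by_cases h0 : f.natDegree = 0
    · left
      exact ⟨f.coeff 0, 1, by rw [one_pow, mul_one]; exact eq_C_of_natDegree_eq_zero h0⟩
    · obtain ⟨F, hF1, hF2, hF3⟩ := exists_factor f (by omega)
      have hf0 : f ≠ 0 := fun h => h0 (by rw [h, natDegree_zero])
      obtain ⟨e, H, hH, hfe⟩ := WfDvdMonoid.max_power_factor hf0 hF1
      have hH0 : H ≠ 0 := fun h => hH (h ▸ dvd_zero F)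
      have he : e ≠ 0 := by
        intro h
        rw [h, pow_zero, one_mul] at hfe
        exact hH (hfe ▸ hF3)
      have hpr : Prime F := hF1.prime
      rcases Nat.even_or_odd e with he2 | he2
      · obtain ⟨d, hd⟩ := he2
        have hdeg : H.natDegree < n := by
          rw [← hn, hfe, natDegree_mul (pow_ne_zero _ hF1.ne_zero) hH0, natDegree_pow]
          have : 0 < e * F.natDegree := Nat.mul_pos (by omega) hF2
          omega
        rcases ih _ hdeg H rfl with ⟨c, g, hg⟩ | ⟨F', e', H', hi, hp, hnd, hn0, heq⟩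
        · left
          refine ⟨c, F ^ d * g, ?_⟩
          rw [hfe, hg, hd]
          ring
        · right
          refine ⟨F', e', F ^ e * H', hi, hp, ?_, mul_ne_zero (pow_ne_zero _ hF1.ne_zero) hn0, ?_⟩
          · intro hdv
            rcases hi.prime.dvd_or_dvd hdv with h1 | h1
            · have h2 : F' ∣ F := hi.prime.dvd_of_dvd_pow h1
              have h3 : Associated F' F := hi.associated_of_dvd hF1 h2
              apply hH
              rw [heq]
              exact (h3.symm.dvd.trans (dvd_pow_self F' (by omega))).mul_right _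
            · exact hnd h1
          · rw [hfe, heq]
            ring
      · right
        obtain ⟨d, hd⟩ := he2
        exact ⟨F, d, H, hF1, hF2, hH, hH0, by rw [hfe, hd]⟩

lemma irr_map {F : ℤ[X]} (hF : Irreducible F) (hd : 0 < F.natDegree) :
    Irreducible (F.map (Int.castRingHom ℚ)) :=
  (IsPrimitive.Int.irreducible_iff_irreducible_map_cast (hF.isPrimitive (by omega))).1 hF

lemma cop_map {F H : ℤ[X]} (hF : Irreducible F) (hd : 0 < F.natDegree) (hH : ¬ F ∣ H) :
    IsCoprime (F.map (Int.castRingHom ℚ)) (H.map (Int.castRingHom ℚ)) := by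
  refine (irr_map hF hd).coprime_iff_not_dvd.2 fun h => hH ?_
  exact (IsPrimitive.Int.dvd_iff_map_cast_dvd_map_cast F H (hF.isPrimitive (by omega))).2 h

/-- translates -/
noncomputable def tr (f : ℤ[X]) (s : ℤ) : ℤ[X] := f.comp (X + C s)

lemma tr_eval (f : ℤ[X]) (s x : ℤ) : (tr f s).eval x = f.eval (x + s) := by
  unfold tr
  simp

lemma tr_tr (f : ℤ[X]) (s t : ℤ) : tr (tr f s) t = tr f (s + t) := by
  unfold tr
  rw [comp_assoc]
  congr 1
  simp only [add_comp, X_comp, C_comp, C_add]
  ring

lemma tr_zero (f : ℤ[X]) : tr f 0 = f := by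
  unfold tr
  simp

lemma tr_mul (f g : ℤ[X]) (s : ℤ) : tr (f * g) s = tr f s * tr g s := mul_comp _ _ _

lemma natDegree_tr (f : ℤ[X]) (s : ℤ) : (tr f s).natDegree = f.natDegree := by
  unfold tr
  rw [natDegree_comp, natDegree_X_add_C, mul_one]

lemma irr_tr {f : ℤ[X]} (hf : Irreducible f) (s : ℤ) : Irreducible (tr f s) := by
  have hunit : ∀ g : ℤ[X], ∀ t : ℤ, IsUnit g → IsUnit (tr g t) := by
    intro g t hg
    exact hg.map (compRingHom (X + C t))
  refine ⟨fun h => hf.not_isUnit ?_, fun a b hab => ?_⟩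
  · have h1 := hunit _ (-s) h
    rwa [tr_tr, add_neg_cancel, tr_zero] at h1
  · have h1 : f = tr a (-s) * tr b (-s) := by
      rw [← tr_mul, ← hab, tr_tr, add_neg_cancel, tr_zero]
    rcases hf.isUnit_or_isUnit h1 with h2 | h2
    · left
      have h3 := hunit _ s h2
      rwa [tr_tr, neg_add_cancel, tr_zero] at h3
    · right
      have h3 := hunit _ s h2
      rwa [tr_tr, neg_add_cancel, tr_zero] at h3

/-- different translates of an irreducible polynomial do not divide each other -/
lemma tr_not_dvd {f : ℤ[X]} (hf : Irreducible f) (hd : 0 < f.natDegree) {s t : ℤ} (hst : s ≠ t) :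
    ¬ tr f s ∣ tr f t := by
  intro h
  have h1 : Associated (tr f s) (tr f t) := (irr_tr hf s).associated_of_dvd (irr_tr hf t) h
  obtain ⟨u, hu⟩ := h1
  obtain ⟨c, hc, hcu⟩ := Polynomial.isUnit_iff.1 u.isUnit
  have h2 : ∀ x : ℤ, (f.eval (x + t)) ^ 2 = (f.eval (x + s)) ^ 2 := by
    intro x
    rw [← tr_eval, ← tr_eval, ← hu, ← hcu, eval_mul, eval_C, mul_pow]
    rcases Int.isUnit_iff.1 hc with h3 | h3 <;> rw [h3] <;> norm_num
  -- periodicity of the square
  have h3 : ∀ k : ℕ, (f ^ 2).eval (k * (t - s)) = (f ^ 2).eval 0 := by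
    intro k
    induction k with
    | zero => simp
    | succ k ihk =>
      rw [← ihk, eval_pow, eval_pow]
      have h4 := h2 (k * (t - s) - s)
      have e1 : (k : ℤ) * (t - s) - s + t = ((k + 1 : ℕ) : ℤ) * (t - s) := by push_cast; ring
      have e2 : (k : ℤ) * (t - s) - s + s = (k : ℤ) * (t - s) := by ring
      rw [e1, e2] at h4
      exact h4
  have h4 : f ^ 2 = C ((f ^ 2).eval 0) := by
    refine Polynomial.eq_of_infinite_eval_eq _ _ ?_
    have h5 : Function.Injective fun k : ℕ => (k : ℤ) * (t - s) := by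
      intro a b hab
      have h6 : t - s ≠ 0 := sub_ne_zero.2 hst.symm
      exact_mod_cast mul_right_cancel₀ h6 hab
    refine (Set.infinite_range_of_injective h5).mono ?_
    rintro _ ⟨k, rfl⟩
    simp only [Set.mem_ofPred_eq]
    rw [h3 k, eval_C]
  have h5 : (f ^ 2).natDegree = 0 := by rw [h4, natDegree_C]
  rw [natDegree_pow] at h5
  omega

/-- Schur's theorem on the prime divisors of the values of a polynomial -/
theorem schur (f : ℤ[X]) (hf : 0 < f.natDegree) (B : ℕ) :
    ∃ p : ℕ, p.Prime ∧ B < p ∧ ∃ x : ℤ, (p : ℤ) ∣ f.eval x := by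
  by_cases h0 : f.eval 0 = 0
  · obtain ⟨p, hp1, hp2⟩ := Nat.exists_infinite_primes (B + 1)
    exact ⟨p, hp2, by omega, 0, by rw [h0]; exact dvd_zero _⟩
  · set c := f.eval 0 with hc
    set N : ℤ := ((B + 2).factorial : ℤ) with hN
    have hN2 : (2 : ℤ) ≤ N := by
      rw [hN]
      have : 2 ≤ (B + 2).factorial := (by omega : 2 ≤ B + 2).trans (Nat.self_le_factorial _)
      exact_mod_cast this
    have hcN : c * N ≠ 0 := mul_ne_zero h0 (by omega)
    -- a value different from c and -c
    have hex : ∃ t : ℤ, f.eval (c * N * t) ^ 2 ≠ c ^ 2 := by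
      by_contra hno
      push Not at hno
      have h4 : f ^ 2 = C (c ^ 2) := by
        refine Polynomial.eq_of_infinite_eval_eq _ _ ?_
        have h5 : Function.Injective fun t : ℤ => c * N * t := by
          intro a b hab
          exact mul_left_cancel₀ hcN hab
        refine (Set.infinite_range_of_injective h5).mono ?_
        rintro _ ⟨k, rfl⟩
        simp only [Set.mem_ofPred_eq]
        rw [eval_pow, hno k, eval_C]
      have h5 : (f ^ 2).natDegree = 0 := by rw [h4, natDegree_C]
      rw [natDegree_pow] at h5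
      omega
    obtain ⟨t, ht⟩ := hex
    obtain ⟨z, hz⟩ := sub_dvd_eval_sub (c * N * t) 0 f
    rw [← hc, sub_zero] at hz
    have h1 : f.eval (c * N * t) = c * (1 + N * (t * z)) := by linear_combination hz
    set u : ℤ := 1 + N * (t * z) with hu
    have hu1 : u.natAbs ≠ 1 := by
      intro h
      apply ht
      rw [h1, mul_pow]
      rcases Int.natAbs_eq_iff.1 h with h2 | h2 <;> rw [h2] <;> norm_num
    obtain ⟨p, hp, hpu⟩ := Nat.exists_prime_and_dvd hu1
    have hpu' : (p : ℤ) ∣ u := Int.natCast_dvd.2 hpu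
    refine ⟨p, hp, ?_, c * N * t, ?_⟩
    · by_contra hcon
      have h2 : p ∣ (B + 2).factorial := Nat.dvd_factorial hp.pos (by omega)
      have h3 : (p : ℤ) ∣ N * (t * z) := (Int.natCast_dvd_natCast.2 h2).mul_right _
      have h4 : (p : ℤ) ∣ 1 := (dvd_add_left h3).1 hpu'
      exact hp.one_lt.ne' (by exact_mod_cast Int.eq_one_of_dvd_one (by positivity) h4)
    · rw [h1]
      exact hpu'.mul_left _

/-- arbitrarily thin sets of primes with roots of all polynomials -/
theorem thin (ψ : ℕ → ℕ) : ∃ p : ℕ → ℕ, StrictMono p ∧ (∀ k, (p k).Prime) ∧ (∀ k, ψ k ≤ p k) ∧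
    ∀ f : ℤ[X], 0 < f.natDegree → (rootPrimes (Set.range p) f).Infinite := by
  classical
  have := countable_poly
  obtain ⟨e, he⟩ := exists_surjective_nat ℤ[X]
  -- one step
  have hstep : ∀ k N : ℕ, ∃ p : ℕ, p.Prime ∧ N < p ∧
      (0 < (e (Nat.unpair k).1).natDegree → ∃ x : ℤ, (p : ℤ) ∣ (e (Nat.unpair k).1).eval x) := by
    intro k N
    by_cases h : 0 < (e (Nat.unpair k).1).natDegree
    · obtain ⟨p, h1, h2, h3⟩ := schur _ h N
      exact ⟨p, h1, h2, fun _ => h3⟩
    · obtain ⟨p, hp1, hp2⟩ := Nat.exists_infinite_primes (N + 1)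
      exact ⟨p, hp2, by omega, fun h' => absurd h' h⟩
  choose s hs1 hs2 hs3 using hstep
  let p : ℕ → ℕ := fun k => Nat.rec (s 0 (ψ 0)) (fun k pk => s (k + 1) (max pk (ψ (k + 1)))) k
  have hp0 : p 0 = s 0 (ψ 0) := rfl
  have hps : ∀ k, p (k + 1) = s (k + 1) (max (p k) (ψ (k + 1))) := fun k => rfl
  have hmono : StrictMono p := strictMono_nat_of_lt_succ fun k => by
    rw [hps]
    exact lt_of_le_of_lt (le_max_left _ _) (hs2 _ _)
  have hform : ∀ k, ∃ N, ψ k ≤ N ∧ p k = s k N := by
    intro k
    cases k with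
    | zero => exact ⟨ψ 0, le_rfl, hp0⟩
    | succ k => exact ⟨_, le_max_right _ _, hps k⟩
  refine ⟨p, hmono, fun k => ?_, fun k => ?_, fun f hf => ?_⟩
  · obtain ⟨N, _, h2⟩ := hform k
    rw [h2]
    exact hs1 _ _
  · obtain ⟨N, h1, h2⟩ := hform k
    rw [h2]
    exact h1.trans (hs2 _ _).le
  · obtain ⟨i, hi⟩ := he f
    have h1 : Set.range (fun j : ℕ => p (Nat.pair i j)) ⊆ rootPrimes (Set.range p) f := by
      rintro _ ⟨j, rfl⟩
      refine ⟨⟨_, rfl⟩, ?_, ?_⟩
      · obtain ⟨N, _, h2⟩ := hform (Nat.pair i j)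
        simp only
        rw [h2]
        exact hs1 _ _
      · obtain ⟨N, _, h2⟩ := hform (Nat.pair i j)
        have h3 := hs3 (Nat.pair i j) N
        rw [Nat.unpair_pair, hi] at h3
        simp only
        rw [h2]
        exact h3 hf
    refine Set.Infinite.mono h1 (Set.infinite_range_of_injective fun j j' h => ?_)
    have h2 := hmono.injective h
    exact (Nat.pair_eq_pair.1 h2).2

end Pool.Agent.Q163.BC
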