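import Mathlib

/-! Runs of consecutive integers with one marked prime each. -/

set_option autoImplicit false

namespace Pool.Agent.Q163.BC

open Finset

/-- the integer `m + j + 1` is divisible by exactly one prime of `R`, namely `p j`, and only to the
first power -/
def Good (R : Finset ℕ) {n : ℕ} (p : Fin n → ℕ) (m : ℕ) : Prop :=
  ∀ j : Fin n, p j ∣ m + j + 1 ∧ ¬ p j ^ 2 ∣ m + j + 1 ∧ ∀ r ∈ R, r ∣ m + j + 1 → r = p j

theorem exists_good (R : Finset ℕ) (hR : ∀ r ∈ R, r.Prime) (n : ℕ)
    (hR1 : ∀ r ∈ R, n < r) (hR2 : ∀ r ∈ R, n * (R.card + 1) + 1 ≤ r) (p : Fin n → ℕ)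
    (hp : ∀ j, p j ∈ R) (hinj : Function.Injective p) :
    ∃ m, m < (n * (R.card + 1) + 1) * ∏ j, p j ∧ Good R p m := by
  classical
  set Q := ∏ j, p j with hQ
  have hQ0 : 0 < Q := Finset.prod_pos fun j _ => (hR _ (hp j)).pos
  have hcop : Set.Pairwise (↑(univ : Finset (Fin n))) (Function.onFun Nat.Coprime p) := by
    intro i _ j _ hij
    exact (Nat.coprime_primes (hR _ (hp i)) (hR _ (hp j))).2 fun h => hij (hinj h)
  let X := Nat.chineseRemainderOfFinset (fun j : Fin n => p j - (j + 1)) p univ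
    (fun j _ => (hR _ (hp j)).ne_zero) hcop
  have hX := X.2
  have hXlt := Nat.chineseRemainderOfFinset_lt_prod (fun j : Fin n => p j - (j + 1)) p
    (t := univ) (fun j _ => (hR _ (hp j)).ne_zero) hcop
  set m0 : ℕ := X.1 with hm0
  have hm0lt : m0 < Q := hXlt
  have hdiv : ∀ j : Fin n, ∀ k, p j ∣ m0 + Q * k + j + 1 := by
    intro j k
    have h1 : m0 ≡ p j - (j + 1) [MOD p j] := hX j (mem_univ j)
    have h2 : n < p j := hR1 _ (hp j)
    have h3 : (j : ℕ) < n := j.2
    have h4 : m0 + (j + 1) ≡ p j - (j + 1) + (j + 1) [MOD p j] := h1.add_right _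
    rw [Nat.sub_add_cancel (by omega)] at h4
    have h5 : p j ∣ m0 + (j + 1) := by
      rw [← Nat.modEq_zero_iff_dvd]
      exact h4.trans (by simp [Nat.ModEq])
    have h6 : p j ∣ Q * k := (Finset.dvd_prod_of_mem p (mem_univ j)).mul_right k
    have h7 := dvd_add h5 h6
    have h8 : m0 + (j + 1) + Q * k = m0 + Q * k + j + 1 := by ring
    rwa [h8] at h7
  set M := n * (R.card + 1) + 1 with hM
  -- a bad condition
  let Bad : ℕ → Fin n × ℕ → Prop := fun k c =>
    if c.2 = 0 then p c.1 ^ 2 ∣ m0 + Q * k + c.1 + 1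
    else c.2 ≠ p c.1 ∧ c.2 ∣ m0 + Q * k + c.1 + 1
  by_contra hno
  push Not at hno
  have hbad : ∀ k ∈ range M, ∃ c : Fin n × ℕ, c.2 ∈ insert 0 R ∧ Bad k c := by
    intro k hk
    have hk' := mem_range.1 hk
    have h1 := hno (m0 + Q * k) (by
      calc m0 + Q * k < Q + Q * k := by omega
        _ = Q * (k + 1) := by ring
        _ ≤ Q * M := Nat.mul_le_mul_left _ (by omega)
        _ = M * Q := by ring)
    unfold Good at h1
    push Not at h1
    obtain ⟨j, hj⟩ := h1
    by_cases h2 : p j ^ 2 ∣ m0 + Q * k + j + 1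
    · refine ⟨(j, 0), mem_insert_self _ _, ?_⟩
      simp only [Bad, if_true]
      exact h2
    · obtain ⟨r, hr, hr2, hr3⟩ := hj (hdiv j k) h2
      refine ⟨(j, r), mem_insert_of_mem hr, ?_⟩
      simp only [Bad, if_neg (hR r hr).ne_zero]
      exact ⟨hr3, hr2⟩
  have : Nonempty (Fin n × ℕ) := ⟨(hbad 0 (mem_range.2 (by omega))).choose⟩
  choose! c hc1 hc2 using hbad
  have hcard : ((univ : Finset (Fin n)) ×ˢ (insert 0 R)).card < (range M).card := by
    rw [card_product, card_univ, Fintype.card_fin, card_range]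
    have : (insert 0 R).card ≤ R.card + 1 := card_insert_le _ _
    calc n * (insert 0 R).card ≤ n * (R.card + 1) := Nat.mul_le_mul_left _ this
      _ < M := by omega
  obtain ⟨k, hk, k', hk', hkk, hck⟩ := Finset.exists_ne_map_eq_of_card_lt_of_maps_to hcard
    (f := c) (fun k hk => by
      simp only [coe_product, Set.mem_prod, mem_coe, mem_univ, true_and]
      exact hc1 k hk)
  -- the contradiction for k < k'
  have key : ∀ k k' : ℕ, k ∈ range M → k' ∈ range M → k < k' → c k = c k' → False := by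
    intro k k' hk hk' hlt he
    have hkM := mem_range.1 hk'
    have h1 := hc2 k hk
    have h2 := hc2 k' hk'
    rw [← he] at h2
    have hm := hc1 k hk
    set j := (c k).1
    have hsub : m0 + Q * k' + j + 1 - (m0 + Q * k + j + 1) = Q * (k' - k) := by
      rw [Nat.mul_sub]
      omega
    by_cases h0 : (c k).2 = 0
    · simp only [Bad, if_pos h0] at h1 h2
      have h3 := Nat.dvd_sub h2 h1
      rw [hsub] at h3
      -- p_j ∣ k' - k
      have h4 : Q = p j * ∏ i ∈ univ.erase j, p i := (Finset.mul_prod_erase univ p (mem_univ j)).symm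
      rw [h4, sq, mul_assoc] at h3
      have h5 := Nat.dvd_of_mul_dvd_mul_left (hR _ (hp j)).pos h3
      have h6 : Nat.Coprime (p j) (∏ i ∈ univ.erase j, p i) :=
        Nat.Coprime.prod_right fun i hi => (Nat.coprime_primes (hR _ (hp j)) (hR _ (hp i))).2
          fun h => (mem_erase.1 hi).1 (hinj h).symm
      have h7 := h6.dvd_of_dvd_mul_left h5
      have h8 := Nat.le_of_dvd (by omega) h7
      have h9 := hR2 _ (hp j)
      omega
    · simp only [Bad, if_neg h0] at h1 h2
      have hr : (c k).2 ∈ R := by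
        rcases mem_insert.1 hm with h | h
        · exact absurd h h0
        · exact h
      have h3 := Nat.dvd_sub h2.2 h1.2
      rw [hsub] at h3
      rcases (Nat.Prime.dvd_mul (hR _ hr)).1 h3 with h4 | h4
      · -- r = p_i for some i
        rw [hQ, Prime.dvd_finsetProd_iff (hR _ hr).prime] at h4
        obtain ⟨i, _, hi⟩ := h4
        have h5 : (c k).2 = p i := (Nat.prime_dvd_prime_iff_eq (hR _ hr) (hR _ (hp i))).1 hi
        have hij : i ≠ j := fun h => h1.1 (by rw [h5, h])
        have h6 := hdiv i k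
        have h7 := h1.2
        rw [h5] at h7
        have hn1 := hR1 _ (hp i)
        have hi2 := i.2
        have hj2 := j.2
        have hne : (i : ℕ) ≠ (j : ℕ) := fun h => hij (Fin.ext h)
        rcases lt_or_gt_of_ne hne with h8 | h8
        · have h9 := Nat.dvd_sub h7 h6
          have h10 : m0 + Q * k + j + 1 - (m0 + Q * k + i + 1) = j - i := by omega
          rw [h10] at h9
          have := Nat.le_of_dvd (by omega) h9
          omega
        · have h9 := Nat.dvd_sub h6 h7
          have h10 : m0 + Q * k + i + 1 - (m0 + Q * k + j + 1) = i - j := by omega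
          rw [h10] at h9
          have := Nat.le_of_dvd (by omega) h9
          omega
      · have h8 := Nat.le_of_dvd (by omega) h4
        have h9 := hR2 _ hr
        omega
  rcases lt_or_gt_of_ne hkk with h | h
  · exact key k k' hk hk' h hck
  · exact key k' k hk' hk h hck.symm

/-- good starting points stay good after adding a multiple of all squares of primes of `R` -/
lemma Good.add {R : Finset ℕ} {n : ℕ} {p : Fin n → ℕ} {m : ℕ} (h : Good R p m) (hp : ∀ j, p j ∈ R)
    {D : ℕ} (hD : ∀ r ∈ R, r ^ 2 ∣ D) (l : ℕ) : Good R p (m + D * l) := by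
  intro j
  obtain ⟨h1, h2, h3⟩ := h j
  have e : m + D * l + j + 1 = (m + j + 1) + D * l := by ring
  rw [e]
  have hd2 : ∀ r ∈ R, r ^ 2 ∣ D * l := fun r hr => (hD r hr).mul_right l
  have hd1 : ∀ r ∈ R, r ∣ D * l := fun r hr => (dvd_pow_self r two_ne_zero).trans (hd2 r hr)
  refine ⟨dvd_add h1 (hd1 _ (hp j)), fun h4 => h2 ?_, fun r hr h4 => h3 r hr ?_⟩
  · exact (Nat.dvd_add_left (hd2 _ (hp j))).1 h4
  · exact (Nat.dvd_add_left (hd1 _ hr)).1 h4

lemma Good.fact {R : Finset ℕ} {n : ℕ} {p : Fin n → ℕ} {m : ℕ} (h : Good R p m) (hp : ∀ j, (p j).Prime)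
    (j : Fin n) : (m + j + 1).factorization (p j) = 1 := by
  obtain ⟨h1, h2, _⟩ := h j
  have h0 : m + j + 1 ≠ 0 := by omega
  have h3 : 1 ≤ (m + j + 1).factorization (p j) := (hp j).dvd_iff_one_le_factorization h0 |>.1 h1
  have h4 : ¬ 2 ≤ (m + j + 1).factorization (p j) := fun h5 =>
    h2 (((hp j).pow_dvd_iff_le_factorization h0).2 h5)
  omega

end Pool.Agent.Q163.BC
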