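import Pool.Agent.Q163.BC.Alg

/-! Changes of the signs at a set of primes, at polynomial values. -/

set_option autoImplicit false

namespace Pool.Agent.Q163.BC

open Finset Filter Topology Polynomial MeasureTheory ProbabilityTheory Pool.Agent.Q163.RP
  Pool.Agent.Q163.RX

/-- the natural number `|f(m)|` -/
noncomputable def absVal (f : ℤ[X]) (m : ℕ) : ℕ := (f.eval (m : ℤ)).natAbs

lemma LF_one {n : ℕ} (F : Fin n → ℤ[X]) (j : Fin n) (m : ℕ) : LF F (fun _ => 1) j m = absVal (F j) m := by
  unfold LF absVal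
  rw [mul_one]

lemma rootPrimes_tr (P : Set ℕ) (f : ℤ[X]) (s : ℤ) : rootPrimes P (tr f s) = rootPrimes P f := by
  ext p
  unfold rootPrimes
  constructor
  · rintro ⟨h1, h2, x, hx⟩
    rw [tr_eval] at hx
    exact ⟨h1, h2, x + s, hx⟩
  · rintro ⟨h1, h2, x, hx⟩
    refine ⟨h1, h2, x - s, ?_⟩
    rw [tr_eval, sub_add_cancel]
    exact hx

lemma mult_pow (c : ℕ → ℝ) (n k : ℕ) : mult c (n ^ k) = mult c n ^ k := by
  by_cases hn : n = 0
  · subst hn
    rcases Nat.eq_zero_or_pos k with h | h
    · rw [h, pow_zero, pow_zero, mult_one]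
    · rw [zero_pow (by omega)]
      unfold mult
      simp
  · induction k with
    | zero => rw [pow_zero, pow_zero, mult_one]
    | succ k ih => rw [pow_succ, pow_succ, mult_mul c (pow_ne_zero _ hn) hn, ih]

/-- an odd power of a factor can be replaced by the factor -/
lemma mult_odd (c : ℕ → ℝ) (hc : ∀ p, |c p| = 1) (u v e : ℕ) :
    mult c (u ^ (2 * e + 1) * v) = mult c (u * v) := by
  by_cases hu : u = 0
  · rw [hu, zero_pow (by omega)]
  by_cases hv : v = 0
  · rw [hv, mul_zero, mul_zero]
  rw [mult_mul c (pow_ne_zero _ hu) hv, mult_mul c hu hv, mult_pow, pow_add, pow_mul, pow_one]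
  have h1 : mult c u ^ 2 = 1 := by
    rw [← sq_abs, abs_mult c hc, one_pow]
  rw [h1, one_pow, one_mul]

lemma val_odd (F H : ℤ[X]) (e m : ℕ) :
    absVal (F ^ (2 * e + 1) * H) m = absVal F m ^ (2 * e + 1) * absVal H m := by
  unfold absVal
  rw [eval_mul, eval_pow, Int.natAbs_mul, Int.natAbs_pow]

lemma val_mul (F H : ℤ[X]) (m : ℕ) : absVal (F * H) m = absVal F m * absVal H m := by
  unfold absVal
  rw [eval_mul, Int.natAbs_mul]

/-- the prime divisors in `P` of the values on a residue class, when only finitely many primes of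
`P` have a root -/
theorem constant_class (P : Set ℕ) (f : ℤ[X]) (hf : f ≠ 0) (hP : (rootPrimes P f).Finite) :
    ∃ Q a : ℕ, 0 < Q ∧ ∀ c : ℕ → ℝ, (∀ p, p ∉ P → c p = 1) → ∀ m, m ≡ a [MOD Q] →
      mult c (absVal f m) = mult c (absVal f a) := by
  classical
  -- a point where f does not vanish
  obtain ⟨a, ha⟩ : ∃ a : ℕ, f.eval (a : ℤ) ≠ 0 := by
    by_contra hno
    push Not at hno
    apply hf
    refine Polynomial.eq_of_infinite_eval_eq _ _ ?_
    refine (Set.infinite_range_of_injective (f := fun k : ℕ => (k : ℤ)) Nat.cast_injective).mono ?_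
    rintro _ ⟨k, rfl⟩
    simp only [Set.mem_ofPred_eq]
    rw [hno k, eval_zero]
  set v : ℕ := absVal f a with hv
  have hv0 : v ≠ 0 := Int.natAbs_ne_zero.2 ha
  set S := hP.toFinset with hS
  have hSm : ∀ p, p ∈ S ↔ p ∈ rootPrimes P f := fun p => hP.mem_toFinset
  refine ⟨∏ p ∈ S, p ^ (v.factorization p + 1), a, Finset.prod_pos fun p hp =>
    pow_pos ((hSm p).1 hp).2.1.pos _, fun c hc m hm => ?_⟩
  have key : ∀ p ∈ S, (absVal f m).factorization p = v.factorization p := by
    intro p hp
    have hpp : p.Prime := ((hSm p).1 hp).2.1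
    have h1 : m ≡ a [MOD p ^ (v.factorization p + 1)] :=
      hm.of_dvd (Finset.dvd_prod_of_mem (fun p => p ^ (v.factorization p + 1)) hp)
    have h2 : (((p ^ (v.factorization p + 1) : ℕ)) : ℤ) ∣ (m : ℤ) - a :=
      Nat.modEq_iff_dvd.1 h1.symm
    have h3 : ∀ e ≤ v.factorization p + 1, (p ^ e ∣ absVal f m ↔ p ^ e ∣ v) := by
      intro e he
      rw [hv]
      unfold absVal
      rw [← Int.natCast_dvd, ← Int.natCast_dvd]
      refine eval_congr f (dvd_trans ?_ h2)
      exact_mod_cast pow_dvd_pow p he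
    have h4 : p ^ (v.factorization p) ∣ absVal f m :=
      (h3 _ (by omega)).2 ((hpp.pow_dvd_iff_le_factorization hv0).2 le_rfl)
    have h5 : ¬ p ^ (v.factorization p + 1) ∣ absVal f m := by
      intro h
      have h6 := (hpp.pow_dvd_iff_le_factorization hv0).1 ((h3 _ le_rfl).1 h)
      omega
    have h0 : absVal f m ≠ 0 := by
      intro h
      apply h5
      rw [h]
      exact dvd_zero _
    have h6 := (hpp.pow_dvd_iff_le_factorization h0).1 h4
    have h7 : ¬ v.factorization p + 1 ≤ (absVal f m).factorization p := fun h =>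
      h5 ((hpp.pow_dvd_iff_le_factorization h0).2 h)
    omega
  rw [mult_eq c (S := (absVal f m).primeFactors ∪ v.primeFactors) subset_union_left,
    mult_eq c (n := v) (S := (absVal f m).primeFactors ∪ v.primeFactors) subset_union_right]
  refine Finset.prod_congr rfl fun p hp => ?_
  have hpp : p.Prime := by
    rcases mem_union.1 hp with h | h
    · exact Nat.prime_of_mem_primeFactors h
    · exact Nat.prime_of_mem_primeFactors h
  by_cases hpP : p ∈ P
  · by_cases hpS : p ∈ S
    · rw [key p hpS]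
    · have hno : ∀ x : ℤ, ¬ (p : ℤ) ∣ f.eval x := fun x hx => hpS ((hSm p).2 ⟨hpP, hpp, x, hx⟩)
      have e1 : (absVal f m).factorization p = 0 :=
        Nat.factorization_eq_zero_of_not_dvd fun h => hno m (Int.natCast_dvd.2 h)
      have e2 : v.factorization p = 0 :=
        Nat.factorization_eq_zero_of_not_dvd fun h => hno a (Int.natCast_dvd.2 h)
      rw [e1, e2]
  · rw [hc p hpP, one_pow, one_pow]

end Pool.Agent.Q163.BC
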