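import Mathlib

/-! Random bits hit one of many prescribed targets (second moment). -/

set_option autoImplicit false

namespace Pool.Agent.Q163.BC

open Finset

/-- sums of products over all functions -/
lemma sum_prod {ι κ : Type*} [Fintype ι] [DecidableEq ι] [Fintype κ] (F : ι → κ → ℝ) :
    ∑ g : ι → κ, ∏ i, F i (g i) = ∏ i, ∑ x, F i x := by
  rw [Finset.prod_univ_sum, Fintype.piFinset_univ]

lemma one_con {K : ℕ} (a : Fin K) (b : Bool) :
    ∑ g : Fin K → Bool, (if g a = b then (1 : ℝ) else 0) = 2 ^ K / 2 := by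
  have h1 : ∀ g : Fin K → Bool, (if g a = b then (1 : ℝ) else 0) =
      ∏ i, (if i = a then (if g i = b then (1 : ℝ) else 0) else 1) := by
    intro g
    rw [Finset.prod_ite_eq' Finset.univ a (fun i => if g i = b then (1 : ℝ) else 0),
      if_pos (Finset.mem_univ a)]
  rw [Finset.sum_congr rfl fun g _ => h1 g,
    sum_prod (fun i (x : Bool) => if i = a then (if x = b then (1 : ℝ) else 0) else 1)]
  have h2 : ∀ i : Fin K, ∑ x : Bool, (if i = a then (if x = b then (1 : ℝ) else 0) else 1) =
      (if i = a then 1 / 2 else 1) * 2 := by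
    intro i
    by_cases hi : i = a
    · simp only [if_pos hi]
      cases b <;> simp
    · simp only [if_neg hi]
      simp
  rw [Finset.prod_congr rfl fun i _ => h2 i, Finset.prod_mul_distrib,
    Finset.prod_ite_eq' Finset.univ a (fun _ => (1 / 2 : ℝ)), if_pos (Finset.mem_univ a)]
  simp
  ring

lemma two_con {K : ℕ} (a a' : Fin K) (b b' : Bool) :
    ∑ g : Fin K → Bool, (if g a = b then (1 : ℝ) else 0) * (if g a' = b' then (1 : ℝ) else 0) ≤
      2 ^ K / 4 * (1 + if a = a' then 1 else 0) := by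
  by_cases h : a = a'
  · subst h
    rw [if_pos rfl]
    have h1 := one_con a b
    have h2 : ∑ g : Fin K → Bool, (if g a = b then (1 : ℝ) else 0) *
        (if g a = b' then (1 : ℝ) else 0) ≤ ∑ g : Fin K → Bool, (if g a = b then (1 : ℝ) else 0) := by
      refine Finset.sum_le_sum fun g _ => ?_
      split_ifs <;> norm_num
    rw [h1] at h2
    refine h2.trans (le_of_eq ?_)
    ring
  · rw [if_neg h, add_zero, mul_one]
    have h1 : ∀ g : Fin K → Bool, (if g a = b then (1 : ℝ) else 0) * (if g a' = b' then (1 : ℝ) else 0) =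
        ∏ i, ((if i = a then (if g i = b then (1 : ℝ) else 0) else 1) *
          (if i = a' then (if g i = b' then (1 : ℝ) else 0) else 1)) := by
      intro g
      rw [Finset.prod_mul_distrib, Finset.prod_ite_eq' Finset.univ a
        (fun i => if g i = b then (1 : ℝ) else 0), Finset.prod_ite_eq' Finset.univ a'
        (fun i => if g i = b' then (1 : ℝ) else 0), if_pos (Finset.mem_univ a),
        if_pos (Finset.mem_univ a')]
    rw [Finset.sum_congr rfl fun g _ => h1 g,
      sum_prod (fun i (x : Bool) => (if i = a then (if x = b then (1 : ℝ) else 0) else 1) *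
        (if i = a' then (if x = b' then (1 : ℝ) else 0) else 1))]
    have h2 : ∀ i : Fin K, ∑ x : Bool, (if i = a then (if x = b then (1 : ℝ) else 0) else 1) *
        (if i = a' then (if x = b' then (1 : ℝ) else 0) else 1) =
        (if i = a then 1 / 2 else 1) * (if i = a' then 1 / 2 else 1) * 2 := by
      intro i
      by_cases hi : i = a
      · have hi' : ¬ i = a' := fun h' => h (hi.symm.trans h')
        simp only [if_pos hi, if_neg hi']
        cases b <;> simp
      · by_cases hi' : i = a'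
        · simp only [if_neg hi, if_pos hi']
          cases b' <;> simp
        · simp only [if_neg hi, if_neg hi']
          simp
    rw [Finset.prod_congr rfl fun i _ => h2 i, Finset.prod_mul_distrib, Finset.prod_mul_distrib,
      Finset.prod_ite_eq' Finset.univ a (fun _ => (1 / 2 : ℝ)), if_pos (Finset.mem_univ a),
      Finset.prod_ite_eq' Finset.univ a' (fun _ => (1 / 2 : ℝ)), if_pos (Finset.mem_univ a')]
    simp
    linarith

/-- **Many targets.** Few tables of bits miss all the targets, one target for every choice of the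
columns. -/
theorem comb (n K : ℕ) (hK : 0 < K) (u : (Fin n → Fin K) → Fin n → Bool) :
    (((univ : Finset (Fin n → Fin K → Bool)).filter (fun h => ∀ p : Fin n → Fin K,
      ∃ j, h j (p j) ≠ u p j)).card : ℝ) ≤ ((1 + 1 / (K : ℝ)) ^ n - 1) * 2 ^ (n * K) := by
  classical
  have hKr : (0 : ℝ) < K := by exact_mod_cast hK
  set I : (Fin n → Fin K → Bool) → (Fin n → Fin K) → ℝ := fun h p =>
    ∏ j, (if h j (p j) = u p j then (1 : ℝ) else 0) with hI
  set Z : (Fin n → Fin K → Bool) → ℝ := fun h => ∑ p, I h p with hZ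
  set μ : ℝ := (K / 2) ^ n with hμ
  set H : ℝ := 2 ^ (n * K) with hH
  have hμ0 : 0 < μ := by positivity
  have hH0 : 0 < H := by positivity
  have hHc : ((2 : ℝ) ^ K) ^ n = H := by rw [hH, ← pow_mul, mul_comm K n]
  -- first moment
  have h1 : ∑ h, Z h = μ * H := by
    rw [hZ, Finset.sum_comm]
    have : ∀ p : Fin n → Fin K, ∑ h : Fin n → Fin K → Bool, I h p = (2 ^ K / 2) ^ n := by
      intro p
      rw [hI]
      simp only
      rw [sum_prod (fun j (g : Fin K → Bool) => if g (p j) = u p j then (1 : ℝ) else 0),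
        Finset.prod_congr rfl fun j _ => one_con (p j) (u p j)]
      simp [div_pow]
    rw [Finset.sum_congr rfl fun p _ => this p]
    simp only [Finset.sum_const, Finset.card_univ, Fintype.card_fun, Fintype.card_fin, nsmul_eq_mul]
    push_cast
    rw [← hHc, hμ, div_pow, div_pow]
    ring
  -- second moment
  have h2 : ∑ h, Z h ^ 2 ≤ μ ^ 2 * H * (1 + 1 / (K : ℝ)) ^ n := by
    have e1 : ∀ h, Z h ^ 2 = ∑ p, ∑ p', ∏ j, ((if h j (p j) = u p j then (1 : ℝ) else 0) *
        (if h j (p' j) = u p' j then (1 : ℝ) else 0)) := by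
      intro h
      rw [sq, hZ]
      simp only
      rw [Finset.sum_mul_sum]
      refine Finset.sum_congr rfl fun p _ => Finset.sum_congr rfl fun p' _ => ?_
      rw [hI]
      simp only
      rw [Finset.prod_mul_distrib]
    rw [Finset.sum_congr rfl fun h _ => e1 h, Finset.sum_comm]
    have e2 : ∀ p : Fin n → Fin K, ∑ h : Fin n → Fin K → Bool, ∑ p' : Fin n → Fin K,
        ∏ j, ((if h j (p j) = u p j then (1 : ℝ) else 0) *
          (if h j (p' j) = u p' j then (1 : ℝ) else 0)) ≤ (2 ^ K / 4 * (K + 1)) ^ n := by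
      intro p
      rw [Finset.sum_comm]
      have e3 : ∀ p' : Fin n → Fin K, ∑ h : Fin n → Fin K → Bool,
          ∏ j, ((if h j (p j) = u p j then (1 : ℝ) else 0) *
            (if h j (p' j) = u p' j then (1 : ℝ) else 0)) ≤
          ∏ j, (2 ^ K / 4 * (1 + if p j = p' j then 1 else 0)) := by
        intro p'
        rw [sum_prod (fun j (g : Fin K → Bool) => (if g (p j) = u p j then (1 : ℝ) else 0) *
          (if g (p' j) = u p' j then (1 : ℝ) else 0))]
        refine Finset.prod_le_prod (fun j _ => Finset.sum_nonneg fun g _ => ?_)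
          fun j _ => two_con _ _ _ _
        split_ifs <;> norm_num
      refine (Finset.sum_le_sum fun p' _ => e3 p').trans (le_of_eq ?_)
      rw [sum_prod (fun j (x : Fin K) => 2 ^ K / 4 * (1 + if p j = x then (1 : ℝ) else 0))]
      have e4 : ∀ j : Fin n, ∑ x : Fin K, 2 ^ K / 4 * (1 + if p j = x then (1 : ℝ) else 0) =
          2 ^ K / 4 * (K + 1) := by
        intro j
        rw [← Finset.mul_sum, Finset.sum_add_distrib, Finset.sum_ite_eq]
        simp
      rw [Finset.prod_congr rfl fun j _ => e4 j]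
      simp
    refine (Finset.sum_le_sum fun p _ => e2 p).trans (le_of_eq ?_)
    simp only [Finset.sum_const, Finset.card_univ, Fintype.card_fun, Fintype.card_fin, nsmul_eq_mul]
    push_cast
    have e5 : (1 + 1 / (K : ℝ)) = (K + 1) / K := by field_simp
    rw [← hHc, hμ, e5, ← pow_mul, mul_comm n 2, pow_mul, ← mul_pow, ← mul_pow, ← mul_pow]
    congr 1
    field_simp
    norm_num
  -- Chebyshev
  set B := (univ : Finset (Fin n → Fin K → Bool)).filter (fun h => ∀ p : Fin n → Fin K,
      ∃ j, h j (p j) ≠ u p j) with hB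
  have h3 : ∀ h ∈ B, Z h = 0 := by
    intro h hh
    rw [hB, mem_filter] at hh
    rw [hZ]
    simp only
    refine Finset.sum_eq_zero fun p _ => ?_
    obtain ⟨j, hj⟩ := hh.2 p
    rw [hI]
    exact Finset.prod_eq_zero (Finset.mem_univ j) (if_neg hj)
  have h4 : (B.card : ℝ) * μ ^ 2 ≤ ∑ h, (Z h - μ) ^ 2 := by
    have e1 : (B.card : ℝ) * μ ^ 2 = ∑ h ∈ B, (Z h - μ) ^ 2 := by
      rw [Finset.sum_congr rfl fun h hh => by rw [h3 h hh]]
      simp
    rw [e1]
    exact Finset.sum_le_sum_of_subset_of_nonneg (Finset.subset_univ _) fun h _ _ => sq_nonneg _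
  have h5 : ∑ h, (Z h - μ) ^ 2 = ∑ h, Z h ^ 2 - 2 * μ * ∑ h, Z h + μ ^ 2 * H := by
    have e1 : ∀ h, (Z h - μ) ^ 2 = Z h ^ 2 - 2 * μ * Z h + μ ^ 2 := fun h => by ring
    rw [Finset.sum_congr rfl fun h _ => e1 h, Finset.sum_add_distrib, Finset.sum_sub_distrib,
      ← Finset.mul_sum]
    simp only [Finset.sum_const, Finset.card_univ, Fintype.card_fun, Fintype.card_fin,
      Fintype.card_bool, nsmul_eq_mul]
    push_cast
    rw [hHc]
    ring
  rw [h5, h1] at h4
  have h6 : (B.card : ℝ) * μ ^ 2 ≤ ((1 + 1 / (K : ℝ)) ^ n - 1) * H * μ ^ 2 := by nlinarith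
  exact le_of_mul_le_mul_right h6 (by positivity)

lemma quarter (n : ℕ) (hn : 1 ≤ n) : (1 + 1 / ((5 * n : ℕ) : ℝ)) ^ n - 1 ≤ 1 / 4 := by
  have hnr : (0 : ℝ) < n := by exact_mod_cast hn
  have h1 : (1 + 1 / ((5 * n : ℕ) : ℝ)) ^ n ≤ Real.exp (1 / 5) := by
    have h2 : 1 + 1 / ((5 * n : ℕ) : ℝ) ≤ Real.exp (1 / ((5 * n : ℕ) : ℝ)) := by
      have := Real.add_one_le_exp (1 / ((5 * n : ℕ) : ℝ))
      linarith
    have h3 : (1 + 1 / ((5 * n : ℕ) : ℝ)) ^ n ≤ Real.exp (1 / ((5 * n : ℕ) : ℝ)) ^ n :=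
      pow_le_pow_left₀ (by positivity) h2 n
    refine h3.trans (le_of_eq ?_)
    rw [← Real.exp_nat_mul]
    congr 1
    push_cast
    field_simp
  have h4 : Real.exp (1 / 5) ≤ 5 / 4 := by
    have h5 := Real.add_one_le_exp (-(1 / 5 : ℝ))
    rw [Real.exp_neg] at h5
    have h6 := Real.exp_pos (1 / 5 : ℝ)
    have h7 : Real.exp (1 / 5) * (Real.exp (1 / 5))⁻¹ = 1 := mul_inv_cancel₀ h6.ne'
    nlinarith
  linarith

/-- several independent tables -/
theorem combT (T n : ℕ) (hn : 1 ≤ n) (u : Fin T → (Fin n → Fin (5 * n)) → Fin n → Bool) :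
    (((univ : Finset (Fin T → Fin n → Fin (5 * n) → Bool)).filter (fun h =>
      ∀ t, ∀ p : Fin n → Fin (5 * n), ∃ j, h t j (p j) ≠ u t p j)).card : ℝ) ≤
      (1 / 4) ^ T * 2 ^ (T * (n * (5 * n))) := by
  classical
  have h1 : (univ : Finset (Fin T → Fin n → Fin (5 * n) → Bool)).filter (fun h =>
      ∀ t, ∀ p : Fin n → Fin (5 * n), ∃ j, h t j (p j) ≠ u t p j) =
      Fintype.piFinset (fun t => (univ : Finset (Fin n → Fin (5 * n) → Bool)).filter
        (fun h => ∀ p : Fin n → Fin (5 * n), ∃ j, h j (p j) ≠ u t p j)) := by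
    ext h
    simp [Fintype.mem_piFinset]
  rw [h1, Fintype.card_piFinset]
  push_cast
  have h2 : ∀ t : Fin T, (((univ : Finset (Fin n → Fin (5 * n) → Bool)).filter
      (fun h => ∀ p : Fin n → Fin (5 * n), ∃ j, h j (p j) ≠ u t p j)).card : ℝ) ≤
      1 / 4 * 2 ^ (n * (5 * n)) := by
    intro t
    refine (comb n (5 * n) (by omega) (u t)).trans ?_
    exact mul_le_mul_of_nonneg_right (quarter n hn) (by positivity)
  refine (Finset.prod_le_prod (fun t _ => Nat.cast_nonneg _) fun t _ => h2 t).trans (le_of_eq ?_)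
  rw [Finset.prod_const, Finset.card_univ, Fintype.card_fin, mul_pow, ← pow_mul,
    mul_comm (n * (5 * n)) T]

end Pool.Agent.Q163.BC
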