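import Pool.Agent.Q163.BC.Dens

/-! The probability that a pattern is missed by the values at general sequences. -/

set_option autoImplicit false

namespace Pool.Agent.Q163.BC

open Finset Filter Topology MeasureTheory ProbabilityTheory Pool.Agent.Q163.RP Pool.Agent.Q163.RX

/-- the values `G j m * χ (L j m)`, `j < n`, have the signs `w` -/
def Hits (P : Set ℕ) {n : ℕ} (G : Fin n → ℕ → ℝ) (L : Fin n → ℕ → ℕ) (w : Fin n → Bool)
    (ω : ℕ → Bool) (m : ℕ) : Prop :=
  ∀ j : Fin n, G j m * mult (sg P es ω) (L j m) = if w j = true then 1 else -1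

lemma meas_hits (P : Set ℕ) {n : ℕ} (G : Fin n → ℕ → ℝ) (L : Fin n → ℕ → ℕ) (w : Fin n → Bool)
    (m : ℕ) : MeasurableSet {ω | Hits P G L w ω m} := by
  unfold Hits
  rw [Set.ofPred_forall]
  exact MeasurableSet.iInter fun j =>
    ((meas_mult signs P _).const_mul _) (measurableSet_singleton _)

lemma val_sign (P : Set ℕ) (g : ℝ) (hg : g = 1 ∨ g = -1) (ω : ℕ → Bool) (x : ℕ) :
    g * mult (sg P es ω) x = 1 ∨ g * mult (sg P es ω) x = -1 := by
  have h1 : |mult (sg P es ω) x| = 1 := abs_mult _ (abs_sg signs P ω) x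
  have h2 : mult (sg P es ω) x = 1 ∨ mult (sg P es ω) x = -1 := (abs_eq zero_le_one).1 h1
  rcases hg with h3 | h3 <;> rcases h2 with h4 | h4 <;> rw [h3, h4] <;> norm_num

/-- the prime `q (t, j, c j)` divides `L j m` exactly once and no other prime of the table does -/
def Fit {T n K : ℕ} (q : Fin T × Fin n × Fin K → ℕ) (L : Fin n → ℕ → ℕ) (t : Fin T)
    (c : Fin n → Fin K) (m : ℕ) : Prop :=
  ∀ j : Fin n, (L j m).factorization (q (t, j, c j)) = 1 ∧ ∀ b, q b ∣ L j m → b = (t, j, c j)

/-- a table with the right values makes the pattern occur -/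
lemma hit2 (P : Set ℕ) {T n K : ℕ} (G : Fin n → ℕ → ℝ) (hG : ∀ j m, G j m = 1 ∨ G j m = -1)
    (L : Fin n → ℕ → ℕ) (q : Fin T × Fin n × Fin K → ℕ) (hqP : ∀ a, q a ∈ P) (t : Fin T)
    (c : Fin n → Fin K) (m : ℕ) (hm : Fit q L t c m) (w : Fin n → Bool) (ω : ℕ → Bool)
    (h : Fin T × Fin n × Fin K → Bool)
    (hh : ∀ j : Fin n, h (t, j, c j) = true ↔
      G j m * mult (sg P es ω) (L j m) ≠ if w j = true then 1 else -1) :
    Hits P G L w (flS (tab q h) ω) m := by
  intro j
  have h1 := mult_tab P q h (t, j, c j) (hqP _) (L j m) (hm j).1 (hm j).2 ω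
  have h2 := val_sign P (G j m) (hG j m) ω (L j m)
  have h3 : G j m * mult (sg P es (flS (tab q h) ω)) (L j m) =
      (if h (t, j, c j) = true then -1 else 1) * (G j m * mult (sg P es ω) (L j m)) := by
    rw [h1]
    ring
  rw [h3]
  by_cases hc : h (t, j, c j) = true
  · have h4 := (hh j).1 hc
    rw [if_pos hc]
    rcases h2 with h5 | h5 <;> rw [h5] at h4 ⊢ <;> by_cases hw : w j = true
    · rw [if_pos hw] at h4
      exact absurd rfl h4
    · rw [if_neg hw]
      norm_num
    · rw [if_pos hw]
      norm_num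
    · rw [if_neg hw] at h4
      exact absurd rfl h4
  · rw [if_neg hc, one_mul]
    by_contra h6
    exact hc ((hh j).2 h6)

open Classical in
/-- **The probability of missing a pattern.** -/
theorem core2 (P : Set ℕ) {T n : ℕ} (hn : 1 ≤ n) (G : Fin n → ℕ → ℝ)
    (hG : ∀ j m, G j m = 1 ∨ G j m = -1) (L : Fin n → ℕ → ℕ)
    (q : Fin T × Fin n × Fin (5 * n) → ℕ) (hqP : ∀ a, q a ∈ P)
    (S : Fin T → (Fin n → Fin (5 * n)) → Finset ℕ) (hS : ∀ t c, ∀ m ∈ S t c, Fit q L t c m)
    (w : Fin n → Bool) :
    (cm {ω | ∀ t c, 2 ^ n * ((S t c).filter fun m => Hits P G L w ω m).card < (S t c).card}).toReal ≤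
      (1 / 4) ^ T := by
  set A : Set (ℕ → Bool) := {ω | ∀ t c, 2 ^ n * ((S t c).filter fun m =>
      Hits P G L w ω m).card < (S t c).card} with hA
  have hmA : MeasurableSet A := by
    rw [hA, Set.ofPred_forall]
    refine MeasurableSet.iInter fun t => ?_
    rw [Set.ofPred_forall]
    refine MeasurableSet.iInter fun c => ?_
    have h1 : Measurable fun ω : ℕ → Bool => ((S t c).filter fun m => Hits P G L w ω m).card := by
      simp only [Finset.card_filter]
      exact Finset.measurable_fun_sum _ fun l _ => Measurable.ite (meas_hits P G L w _)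
        measurable_const measurable_const
    exact h1 (MeasurableSet.of_discrete (s := {k : ℕ | 2 ^ n * k < (S t c).card}))
  refine prob hmA q (univ : Finset (Fin T × Fin n × Fin (5 * n) → Bool)) (fun h => mem_univ _) _ ?_
  intro ω B hB
  -- the popular targets
  have hpop : ∀ t c, ∃ u : Fin n → Bool, (S t c).card ≤ 2 ^ n * ((S t c).filter fun m =>
      ∀ j : Fin n, u j = true ↔ G j m * mult (sg P es ω) (L j m) ≠
        if w j = true then 1 else -1).card := by
    intro t c
    have h1 := Finset.exists_le_card_fiber_of_nsmul_le_card_of_maps_to (M := ℚ) (s := S t c)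
      (t := (univ : Finset (Fin n → Bool)))
      (f := fun m j => decide (G j m * mult (sg P es ω) (L j m) ≠ if w j = true then 1 else -1))
      (b := ((S t c).card : ℚ) / 2 ^ n) (fun _ _ => mem_univ _) univ_nonempty (by
        rw [card_univ, Fintype.card_fun, Fintype.card_fin, Fintype.card_bool, nsmul_eq_mul]
        push_cast
        rw [mul_div_cancel₀]
        positivity)
    obtain ⟨u, _, hu⟩ := h1
    refine ⟨u, ?_⟩
    rw [div_le_iff₀ (by positivity)] at hu
    have h2 : ((S t c).filter fun m => (fun j : Fin n => decide (G j m *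
        mult (sg P es ω) (L j m) ≠ if w j = true then 1 else -1)) = u) ⊆ (S t c).filter fun m =>
      ∀ j : Fin n, u j = true ↔ G j m * mult (sg P es ω) (L j m) ≠
        if w j = true then 1 else -1 := by
      intro l hl
      rw [mem_filter] at hl ⊢
      refine ⟨hl.1, fun j => ?_⟩
      rw [← hl.2]
      exact decide_eq_true_iff
    have h3 := card_le_card h2
    have h4 : ((S t c).card : ℚ) ≤ ((((S t c).filter fun m =>
      ∀ j : Fin n, u j = true ↔ G j m * mult (sg P es ω) (L j m) ≠
        if w j = true then 1 else -1).card : ℕ) : ℚ) * 2 ^ n := by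
      refine hu.trans ?_
      have h5 : (((S t c).filter fun m => (fun j : Fin n => decide (G j m *
        mult (sg P es ω) (L j m) ≠ if w j = true then 1 else -1)) = u).card : ℚ) ≤
        (((S t c).filter fun m => ∀ j : Fin n, u j = true ↔ G j m * mult (sg P es ω) (L j m) ≠
        if w j = true then 1 else -1).card : ℚ) := by exact_mod_cast h3
      exact mul_le_mul_of_nonneg_right h5 (by positivity)
    have h6 : ((S t c).card : ℚ) ≤ ((2 ^ n * ((S t c).filter fun m =>
      ∀ j : Fin n, u j = true ↔ G j m * mult (sg P es ω) (L j m) ≠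
        if w j = true then 1 else -1).card : ℕ) : ℚ) := by
      push_cast
      linarith
    exact_mod_cast h6
  choose u hu using hpop
  have h1 : B.card ≤ ((univ : Finset (Fin T → Fin n → Fin (5 * n) → Bool)).filter (fun h =>
      ∀ t, ∀ p : Fin n → Fin (5 * n), ∃ j, h t j (p j) ≠ u t p j)).card := by
    refine Finset.card_le_card_of_injOn (fun h t j k => h (t, j, k)) ?_ ?_
    · intro h hh
      simp only [coe_filter, mem_univ, true_and, Set.mem_ofPred_eq]
      intro t c
      by_contra hno
      push Not at hno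
      have h2 := hB h hh t c
      have h3 : ((S t c).filter fun m =>
          ∀ j : Fin n, u t c j = true ↔ G j m * mult (sg P es ω) (L j m) ≠
            if w j = true then 1 else -1) ⊆
          (S t c).filter fun m => Hits P G L w (flS (tab q h) ω) m := by
        intro l hl
        rw [mem_filter] at hl ⊢
        refine ⟨hl.1, ?_⟩
        refine hit2 P G hG L q hqP t c l (hS t c l hl.1) w ω h ?_
        intro j
        rw [hno j]
        exact hl.2 j
      have h4 := card_le_card h3
      have h5 := Nat.mul_le_mul_left (2 ^ n) h4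
      have h6 := hu t c
      omega
    · intro h _ h' _ he
      funext a
      obtain ⟨t, j, k⟩ := a
      exact congrFun (congrFun (congrFun he t) j) k
  have h2 := combT T n hn u
  have h3 : (B.card : ℝ) ≤ (1 / 4) ^ T * 2 ^ (T * (n * (5 * n))) := le_trans (by exact_mod_cast h1) h2
  refine h3.trans (le_of_eq ?_)
  rw [card_univ, Fintype.card_fun, Fintype.card_prod, Fintype.card_prod, Fintype.card_fin,
    Fintype.card_fin, Fintype.card_fin, Fintype.card_bool]
  push_cast
  rfl

open Classical in
/-- the number of `m < N` with the property `S` is at least a constant times `W N` for arbitrarily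
large `N` -/
def PosW (W : ℕ → ℝ) (S : ℕ → Prop) : Prop :=
  ∃ c : ℝ, 0 < c ∧ ∃ᶠ N : ℕ in atTop, c * W N ≤ ((range N).filter S).card

open Classical in
/-- **Positive upper density along a set of base points.** -/
theorem density2 (P : Set ℕ) {n : ℕ} (hn : 1 ≤ n) (G : Fin n → ℕ → ℝ)
    (hG : ∀ j m, G j m = 1 ∨ G j m = -1) (L : Fin n → ℕ → ℕ) (W : ℕ → ℝ) (Bs : ℕ → Prop)
    (hdat : ∀ T : ℕ, ∃ q : Fin T × Fin n × Fin (5 * n) → ℕ, (∀ a, q a ∈ P) ∧
      ∃ Cl : Fin T → (Fin n → Fin (5 * n)) → ℕ → Prop, (∀ t c m, Cl t c m → Fit q L t c m) ∧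
        ∃ κ : ℝ, 0 < κ ∧ ∀ t c, ∀ᶠ N : ℕ in atTop, κ * W N ≤
          ((range N).filter fun m => Bs m ∧ Cl t c m).card)
    (w : Fin n → Bool) :
    ∀ᵐ ω ∂cm, PosW W fun m => Bs m ∧ Hits P G L w ω m := by
  have key : ∀ T : ℕ, cm {ω | ¬ PosW W fun m => Bs m ∧ Hits P G L w ω m} ≤
      ENNReal.ofReal ((1 / 4) ^ T) := by
    intro T
    obtain ⟨q, hqP, Cl, hCl, κ, hκ, hcount⟩ := hdat T
    set S : ℕ → Fin T → (Fin n → Fin (5 * n)) → Finset ℕ := fun N t c =>
      (range N).filter fun m => Bs m ∧ Cl t c m with hSdef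
    set A : ℕ → Set (ℕ → Bool) := fun N => {ω | ∀ t c, 2 ^ n * ((S N t c).filter fun m =>
      Hits P G L w ω m).card < (S N t c).card} with hA
    have hAN : ∀ N, cm (A N) ≤ ENNReal.ofReal ((1 / 4) ^ T) := by
      intro N
      have h2 := core2 P hn G hG L q hqP (S N) (fun t c m hm => hCl t c m
        (by rw [hSdef] at hm; exact (mem_filter.1 hm).2.2)) w
      exact ENNReal.le_ofReal_iff_toReal_le (measure_lt_top _ _).ne (by positivity) |>.2 h2
    have hcount' : ∀ᶠ N : ℕ in atTop, ∀ t c, κ * W N ≤ (S N t c).card := by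
      rw [eventually_all]
      intro t
      rw [eventually_all]
      exact fun c => hcount t c
    have hsub : {ω | ¬ PosW W fun m => Bs m ∧ Hits P G L w ω m} ⊆ ⋃ M : ℕ, ⋂ N ∈ Set.Ici M, A N := by
      intro ω hω
      by_contra hno
      refine hω ⟨κ / 2 ^ n, by positivity, ?_⟩
      have hf : ∃ᶠ N : ℕ in atTop, ω ∉ A N := by
        rw [frequently_atTop]
        intro M
        simp only [Set.mem_iUnion, Set.mem_iInter, not_exists, not_forall] at hno
        obtain ⟨N, hN, h2⟩ := hno M
        exact ⟨N, hN, h2⟩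
      refine (hf.and_eventually hcount').mono ?_
      rintro N ⟨h1, h2⟩
      rw [hA] at h1
      simp only [Set.mem_ofPred_eq, not_forall, not_lt] at h1
      obtain ⟨t, c, h3⟩ := h1
      have h4 : ((S N t c).filter fun m => Hits P G L w ω m).card ≤
          ((range N).filter fun m => Bs m ∧ Hits P G L w ω m).card := by
        refine card_le_card fun m hm => ?_
        rw [mem_filter, hSdef] at hm
        rw [mem_filter]
        exact ⟨(mem_filter.1 hm.1).1, (mem_filter.1 hm.1).2.1, hm.2⟩
      have h5 : ((S N t c).card : ℝ) ≤ 2 ^ n *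
          ((range N).filter fun m => Bs m ∧ Hits P G L w ω m).card := by
        have h6 := h3.trans (Nat.mul_le_mul_left (2 ^ n) h4)
        exact_mod_cast h6
      rw [div_mul_eq_mul_div, div_le_iff₀ (by positivity)]
      have h7 := (h2 t c).trans h5
      rw [mul_comm ((2 : ℝ) ^ n)] at h7
      refine h7.trans (le_of_eq ?_)
      congr
    have hmono : Monotone fun M : ℕ => ⋂ N ∈ Set.Ici M, A N := by
      intro M M' hM ω hω
      simp only [Set.mem_iInter] at hω ⊢
      intro N hN
      exact hω N (le_trans hM hN)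
    refine (measure_mono hsub).trans ?_
    rw [hmono.measure_iUnion]
    refine iSup_le fun M => (measure_mono ?_).trans (hAN M)
    exact Set.iInter₂_subset M (Set.mem_Ici.2 le_rfl)
  rw [ae_iff]
  have ht : Tendsto (fun T : ℕ => ENNReal.ofReal ((1 / 4) ^ T)) atTop (𝓝 0) := by
    have h1 : Tendsto (fun T : ℕ => ((1 / 4 : ℝ)) ^ T) atTop (𝓝 0) :=
      tendsto_pow_atTop_nhds_zero_of_lt_one (by norm_num) (by norm_num)
    have h2 := ENNReal.tendsto_ofReal h1
    rwa [ENNReal.ofReal_zero] at h2
  exact le_antisymm (ge_of_tendsto' ht key) zero_le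

end Pool.Agent.Q163.BC
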