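import Pool.Agent.Q163.BC.Occ

/-! Patterns of signs occur with positive upper density. -/

set_option autoImplicit false

namespace Pool.Agent.Q163.BC

open Finset Filter Topology MeasureTheory ProbabilityTheory Pool.Agent.Q163.RP Pool.Agent.Q163.RX

open Classical in
/-- positive upper density -/
def Pos (S : ℕ → Prop) : Prop :=
  ∃ c : ℝ, 0 < c ∧ ∃ᶠ N : ℕ in atTop, c * N ≤ ((range N).filter S).card

open Classical in
lemma pos_of_freq (S : ℕ → Prop) {ι : Type*} [Finite ι] (m : ι → ℕ) (D n : ℕ) (hD : 1 ≤ D)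
    (h : ∃ᶠ N : ℕ in atTop, ∃ i, N ≤ 2 ^ n * ((range N).filter fun l => S (m i + D * l)).card) :
    Pos S := by
  have := Fintype.ofFinite ι
  set L := ∑ i, m i with hL
  have hmL : ∀ i, m i ≤ L := fun i => Finset.single_le_sum (fun _ _ => Nat.zero_le _) (mem_univ i)
  refine ⟨1 / (2 ^ n * (L + D)), by positivity, ?_⟩
  rw [frequently_atTop] at h ⊢
  intro N0
  obtain ⟨N, hN, i, hi⟩ := h (N0 + 1)
  refine ⟨L + D * N, by nlinarith, ?_⟩
  have h1 : ((range N).filter fun l => S (m i + D * l)).card ≤ ((range (L + D * N)).filter S).card := by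
    refine Finset.card_le_card_of_injOn (fun l => m i + D * l) ?_ ?_
    · intro l hl
      rw [mem_coe, mem_filter, mem_range] at hl
      simp only [coe_filter, mem_range, Set.mem_ofPred_eq]
      refine ⟨?_, hl.2⟩
      have h2 := hmL i
      have h3 : D * l < D * N := Nat.mul_lt_mul_of_pos_left hl.1 (by omega)
      omega
    · intro a _ b _ hab
      simp only [Nat.add_left_cancel_iff] at hab
      exact Nat.eq_of_mul_eq_mul_left (by omega) hab
  have hN1 : (1 : ℝ) ≤ N := by exact_mod_cast (by omega : 1 ≤ N)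
  have h2 : (N : ℝ) ≤ 2 ^ n * ((range (L + D * N)).filter S).card := by
    have h3 : N ≤ 2 ^ n * ((range (L + D * N)).filter S).card :=
      hi.trans (Nat.mul_le_mul_left _ h1)
    exact_mod_cast h3
  push_cast
  have hD1 : (1 : ℝ) ≤ D := by exact_mod_cast hD
  have hL0 : (0 : ℝ) ≤ L := Nat.cast_nonneg _
  rw [one_div, inv_mul_le_iff₀ (by positivity)]
  have h4 : (L : ℝ) + D * N ≤ (L + D) * N := by nlinarith
  calc (L : ℝ) + D * N ≤ (L + D) * N := h4
    _ ≤ (L + D) * (2 ^ n * ((range (L + D * N)).filter S).card) :=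
        mul_le_mul_of_nonneg_left h2 (by positivity)
    _ = 2 ^ n * (L + D) * ((range (L + D * N)).filter S).card := by ring

/-- **Positive upper density.** -/
theorem density (P : Set ℕ) (hP : {p | p ∈ P ∧ p.Prime}.Infinite) (g : ℕ → ℝ)
    (hg : ∀ n, g n = 1 ∨ g n = -1) (n : ℕ) (hn : 1 ≤ n) (w : Fin n → Bool) :
    ∀ᵐ ω ∂cm, Pos fun m => Occurs (rv P g ω) w m := by
  classical
  have key : ∀ T : ℕ, cm {ω | ¬ Pos fun m => Occurs (rv P g ω) w m} ≤
      ENNReal.ofReal ((1 / 4) ^ T) := by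
    intro T
    have h1 : {p | (p ∈ P ∧ p.Prime) ∧ n * (T * (n * (5 * n)) + 1) + 1 ≤ p}.Infinite := by
      have h2 := hP.sdiff (Set.finite_Iio (n * (T * (n * (5 * n)) + 1) + 1))
      refine h2.mono ?_
      rintro p ⟨hp, hp2⟩
      exact ⟨hp, not_lt.1 hp2⟩
    obtain ⟨R, hRs, hRc⟩ := h1.exists_subset_card_eq (T * (n * (5 * n)))
    have hR : ∀ r ∈ R, (r ∈ P ∧ r.Prime) ∧ n * (T * (n * (5 * n)) + 1) + 1 ≤ r := fun r hr => hRs hr
    obtain ⟨q, m, hq, hqR, hm, _⟩ := points R (fun r hr => (hR r hr).1.2) T n hRc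
      (fun r hr => by rw [hRc]; exact (hR r hr).2)
    set D := ∏ r ∈ R, r ^ 2 with hD
    have hD1 : 1 ≤ D := Finset.prod_pos fun r hr => pow_pos (hR r hr).1.2.pos 2
    set A : ℕ → Set (ℕ → Bool) := fun N => {ω | ∀ t c, 2 ^ n * ((range N).filter fun l =>
      Occurs (rv P g ω) w (m t c + D * l)).card < N} with hA
    have hAN : ∀ N, cm (A N) ≤ ENNReal.ofReal ((1 / 4) ^ T) := by
      intro N
      have h2 := core P R (fun r hr => (hR r hr).1.1) (fun r hr => (hR r hr).1.2) g hg hn q hq hqR m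
        hm D (fun r hr => Finset.dvd_prod_of_mem (fun r => r ^ 2) hr) N w
      exact ENNReal.le_ofReal_iff_toReal_le (measure_lt_top _ _).ne (by positivity) |>.2 h2
    have hsub : {ω | ¬ Pos fun m => Occurs (rv P g ω) w m} ⊆ ⋃ M : ℕ, ⋂ N ∈ Set.Ici M, A N := by
      intro ω hω
      by_contra hno
      refine hω (pos_of_freq (ι := Fin T × (Fin n → Fin (5 * n))) _ (fun i => m i.1 i.2) D n hD1 ?_)
      rw [frequently_atTop]
      intro M
      simp only [Set.mem_iUnion, Set.mem_iInter, not_exists, not_forall] at hno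
      obtain ⟨N, hN, h2⟩ := hno M
      rw [hA] at h2
      simp only [Set.mem_ofPred_eq, not_forall, not_lt] at h2
      obtain ⟨t, c, h3⟩ := h2
      exact ⟨N, hN, (t, c), h3⟩
    have hmono : Monotone fun M : ℕ => ⋂ N ∈ Set.Ici M, A N := by
      intro M M' hM ω hω
      simp only [Set.mem_iInter] at hω ⊢
      intro N hN
      exact hω N (le_trans hM hN)
    refine (measure_mono hsub).trans ?_
    rw [hmono.measure_iUnion]
    refine iSup_le fun M => (measure_mono ?_).trans (hAN M)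
    exact Set.iInter₂_subset M (Set.mem_Ici.2 le_rfl)
  rw [ae_iff]
  have ht : Tendsto (fun T : ℕ => ENNReal.ofReal ((1 / 4) ^ T)) atTop (𝓝 0) := by
    have h1 : Tendsto (fun T : ℕ => ((1 / 4 : ℝ)) ^ T) atTop (𝓝 0) :=
      tendsto_pow_atTop_nhds_zero_of_lt_one (by norm_num) (by norm_num)
    have h2 := ENNReal.tendsto_ofReal h1
    rwa [ENNReal.ofReal_zero] at h2
  exact le_antisymm (ge_of_tendsto' ht key) zero_le

end Pool.Agent.Q163.BC
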