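import Pool.Agent.Q163.RX.Mgf

/-! Flipping sets of coins. -/

set_option autoImplicit false

namespace Pool.Agent.Q163.BC

open Finset MeasureTheory ProbabilityTheory Pool.Agent.Q163.RP Pool.Agent.Q163.RX

open Classical in
/-- flip the coins in `S` -/
noncomputable def flS (S : Set ℕ) (ω : ℕ → Bool) : ℕ → Bool := fun i => if i ∈ S then !(ω i) else ω i

lemma mp_flS (S : Set ℕ) : MeasurePreserving (flS S) cm cm := by
  classical
  have hm : Measurable (flS S) := by
    refine measurable_pi_lambda _ fun i => ?_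
    unfold flS
    split_ifs
    · exact (measurable_of_finite not).comp (measurable_pi_apply i)
    · exact measurable_pi_apply i
  refine ⟨hm, ?_⟩
  have h1 := Measure.infinitePi_map_pi (μ := fun _ : ℕ => coin)
    (f := fun i x => if i ∈ S then !x else x) (fun i => measurable_of_finite _)
  unfold cm
  have h2 : flS S = fun (ω : ℕ → Bool) i => (fun (i : ℕ) (x : Bool) => if i ∈ S then !x else x) i (ω i) := rfl
  rw [h2, h1]
  congr 1
  funext i
  by_cases hi : i ∈ S
  · simp only [hi, if_true]
    exact coin_not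
  · simp only [hi, if_false]
    exact Measure.map_id

/-- the flips given by a table of bits -/
def tab {ι : Type*} (q : ι → ℕ) (h : ι → Bool) : Set ℕ := {i | ∃ a, q a = i ∧ h a = true}

/-- **Resampling.** If every configuration has few tables which lead to `A`, then `A` has a small
probability. -/
theorem prob {A : Set (ℕ → Bool)} (hA : MeasurableSet A) {ι : Type*} [Fintype ι] (q : ι → ℕ)
    (F : Finset (ι → Bool)) (hF : ∀ h, h ∈ F) (c : ℝ)
    (hc : ∀ ω, ∀ B : Finset (ι → Bool), (∀ h ∈ B, flS (tab q h) ω ∈ A) → (B.card : ℝ) ≤ c * F.card) :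
    (cm A).toReal ≤ c := by
  classical
  have h0 : 0 < F.card := Finset.card_pos.2 ⟨fun _ => true, hF _⟩
  have h0r : (0 : ℝ) < F.card := by exact_mod_cast h0
  have hmB : ∀ h : ι → Bool, MeasurableSet (flS (tab q h) ⁻¹' A) := fun h =>
    (mp_flS (tab q h)).measurable hA
  have h1 : ∀ h : ι → Bool, ∫ ω, (flS (tab q h) ⁻¹' A).indicator (1 : (ℕ → Bool) → ℝ) ω ∂cm =
      (cm A).toReal := by
    intro h
    rw [integral_indicator_one (hmB h), Measure.real,
      (mp_flS (tab q h)).measure_preimage hA.nullMeasurableSet]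
  have h2 : (F.card : ℝ) * (cm A).toReal =
      ∫ ω, ∑ h ∈ F, (flS (tab q h) ⁻¹' A).indicator (1 : (ℕ → Bool) → ℝ) ω ∂cm := by
    have hi : ∀ h ∈ F, Integrable (fun ω => (flS (tab q h) ⁻¹' A).indicator
        (1 : (ℕ → Bool) → ℝ) ω) cm := fun h _ => (integrable_const (1 : ℝ)).indicator (hmB h)
    rw [integral_finsetSum _ hi, Finset.sum_congr rfl fun h _ => h1 h, Finset.sum_const,
      nsmul_eq_mul]
  have h3 : ∀ ω, ∑ h ∈ F, (flS (tab q h) ⁻¹' A).indicator (1 : (ℕ → Bool) → ℝ) ω ≤ c * F.card := by
    intro ω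
    have h4 := hc ω (F.filter fun h => flS (tab q h) ω ∈ A) fun h hh => (mem_filter.1 hh).2
    refine le_trans (le_of_eq ?_) h4
    rw [Finset.card_filter]
    push_cast
    refine Finset.sum_congr rfl fun h _ => ?_
    simp only [Set.indicator_apply, Set.mem_preimage, Pi.one_apply]
  have h5 : ∫ ω, ∑ h ∈ F, (flS (tab q h) ⁻¹' A).indicator (1 : (ℕ → Bool) → ℝ) ω ∂cm ≤
      ∫ _ω, c * F.card ∂cm := by
    refine integral_mono ?_ (integrable_const _) h3
    exact integrable_finsetSum _ fun h _ => (integrable_const (1 : ℝ)).indicator (hmB h)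
  rw [← h2] at h5
  simp only [integral_const, probReal_univ, smul_eq_mul] at h5
  nlinarith

/-- only the signs at the prime factors matter -/
lemma mult_congr' {c d : ℕ → ℝ} {n : ℕ} (h : ∀ p ∈ n.primeFactors, c p = d p) : mult c n = mult d n :=
  Finset.prod_congr rfl fun p hp => by rw [h p hp]

/-- flipping the coins of a table changes the sign at `n` if `n` has one prime factor of the table,
of exponent one -/
theorem mult_tab (P : Set ℕ) {ι : Type*} (q : ι → ℕ) (h : ι → Bool) (a : ι) (ha : q a ∈ P) (n : ℕ)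
    (h1 : n.factorization (q a) = 1) (h2 : ∀ b, q b ∣ n → b = a) (ω : ℕ → Bool) :
    mult (sg P es (flS (tab q h) ω)) n = (if h a = true then -1 else 1) * mult (sg P es ω) n := by
  classical
  have key : ∀ p ∈ n.primeFactors, p ∈ tab q h → p = q a ∧ h a = true := by
    intro p hp ht
    obtain ⟨b, hb, hb2⟩ := ht
    have h3 : q b ∣ n := hb ▸ Nat.dvd_of_mem_primeFactors hp
    have h4 := h2 b h3
    subst h4
    exact ⟨hb.symm, hb2⟩
  by_cases hh : h a = true
  · rw [if_pos hh]
    have h3 : mult (sg P es (flS (tab q h) ω)) n = mult (sg P es (fl (q a) ω)) n := by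
      refine mult_congr' fun p hp => ?_
      unfold sg es flS fl
      by_cases hpa : p = q a
      · have h4 : p ∈ tab q h := ⟨a, hpa.symm, hh⟩
        simp only [if_pos hpa, if_pos h4]
      · have h4 : p ∉ tab q h := fun h5 => hpa (key p hp h5).1
        simp only [if_neg hpa, if_neg h4]
    rw [h3, mult_fl P ha, h1, pow_one]
  · rw [if_neg hh, one_mul]
    refine mult_congr' fun p hp => ?_
    unfold sg es flS
    have h4 : p ∉ tab q h := fun h5 => hh (key p hp h5).2
    simp only [if_neg h4]

end Pool.Agent.Q163.BC
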