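import Pool.Agent.Q163.BC.Chg

/-! Linear polynomials. -/

set_option autoImplicit false

namespace Pool.Agent.Q163.BC

open Finset Filter Topology Polynomial

/-- the polynomial `a X + b` -/
noncomputable def lin (a b : ℤ) : ℤ[X] := C a * X + C b

lemma lin_eval (a b x : ℤ) : (lin a b).eval x = a * x + b := by
  unfold lin
  simp

lemma lin_map (a b : ℤ) : (lin a b).map (Int.castRingHom ℚ) = C (a : ℚ) * X + C (b : ℚ) := by
  unfold lin
  simp only [Polynomial.map_add, Polynomial.map_mul, Polynomial.map_C, Polynomial.map_X]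
  rfl

lemma lin_sep {a : ℤ} (ha : a ≠ 0) (b : ℤ) : ((lin a b).map (Int.castRingHom ℚ)).Separable := by
  rw [lin_map, separable_def]
  have h1 : derivative (C (a : ℚ) * X + C (b : ℚ)) = C (a : ℚ) := by simp
  rw [h1]
  have ha' : (a : ℚ) ≠ 0 := by exact_mod_cast ha
  refine ⟨0, C ((a : ℚ)⁻¹), ?_⟩
  rw [zero_mul, zero_add, ← C_mul, inv_mul_cancel₀ ha', C_1]

lemma lin_cop {a b c d : ℤ} (h : a * d ≠ c * b) :
    IsCoprime ((lin a b).map (Int.castRingHom ℚ)) ((lin c d).map (Int.castRingHom ℚ)) := by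
  rw [lin_map, lin_map]
  have h1 : (a : ℚ) * d - c * b ≠ 0 := by
    intro h2
    apply h
    have h3 : (a : ℚ) * d = c * b := sub_eq_zero.1 h2
    exact_mod_cast h3
  set u : ℚ := (a : ℚ) * d - c * b with hu
  refine ⟨C (-(c : ℚ) / u), C ((a : ℚ) / u), ?_⟩
  have h2 : C (-(c : ℚ) / u) * (C (a : ℚ) * X + C (b : ℚ)) + C ((a : ℚ) / u) * (C (c : ℚ) * X + C (d : ℚ)) =
      C (-(c : ℚ) / u * a + a / u * c) * X + C (-(c : ℚ) / u * b + a / u * d) := by
    simp only [C_add, C_mul]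
    ring
  rw [h2]
  have h3 : -(c : ℚ) / u * a + a / u * c = 0 := by ring
  have h4 : -(c : ℚ) / u * b + a / u * d = 1 := by
    rw [← mul_div_right_comm, ← mul_div_right_comm, ← add_div, div_eq_one_iff_eq h1, hu]
    ring
  rw [h3, h4, C_0, zero_mul, zero_add, C_1]

lemma lin_root (P : Set ℕ) (hP : {p | p ∈ P ∧ p.Prime}.Infinite) {a : ℤ} (ha : a ≠ 0) (b : ℤ) :
    (rootPrimes P (lin a b)).Infinite := by
  have h1 := hP.sdiff (Set.finite_Iic a.natAbs)
  refine h1.mono ?_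
  rintro p ⟨⟨hp1, hp2⟩, hp3⟩
  have hp3' : a.natAbs < p := not_le.1 hp3
  refine ⟨hp1, hp2, ?_⟩
  have hcop : IsCoprime (a : ℤ) (p : ℤ) := by
    have h2 : Nat.Coprime a.natAbs p := (Nat.coprime_of_lt_prime (Int.natAbs_ne_zero.2 ha) hp3' hp2).symm
    rw [Int.isCoprime_iff_gcd_eq_one]
    simpa [Int.gcd] using h2
  obtain ⟨u, v, huv⟩ := hcop
  refine ⟨-b * u, b * v, ?_⟩
  rw [lin_eval]
  linear_combination (-b) * huv

end Pool.Agent.Q163.BC
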