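import Pool.Agent.Q163.BC.Comb
import Pool.Agent.Q163.BC.Flip
import Pool.Agent.Q163.BC.Arith

/-! Patterns of signs: the probability that a pattern is missed. -/

set_option autoImplicit false

namespace Pool.Agent.Q163.BC

open Finset MeasureTheory ProbabilityTheory Pool.Agent.Q163.RP Pool.Agent.Q163.RX

/-- the pattern `w` occurs in `f` after `m`: the values at `m + 1, ..., m + n` are the signs `w` -/
def Occurs (f : ℕ → ℝ) {n : ℕ} (w : Fin n → Bool) (m : ℕ) : Prop :=
  ∀ j : Fin n, f (m + j + 1) = if w j = true then 1 else -1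

/-- the function `g` times the random function -/
noncomputable def rv (P : Set ℕ) (g : ℕ → ℝ) (ω : ℕ → Bool) (x : ℕ) : ℝ := g x * mult (sg P es ω) x

lemma rv_sign (P : Set ℕ) (g : ℕ → ℝ) (hg : ∀ n, g n = 1 ∨ g n = -1) (ω : ℕ → Bool) (x : ℕ) :
    rv P g ω x = 1 ∨ rv P g ω x = -1 := by
  have h1 : |mult (sg P es ω) x| = 1 := abs_mult _ (abs_sg signs P ω) x
  have h2 : mult (sg P es ω) x = 1 ∨ mult (sg P es ω) x = -1 := (abs_eq zero_le_one).1 h1
  unfold rv
  rcases hg x with h3 | h3 <;> rcases h2 with h4 | h4 <;> rw [h3, h4] <;> norm_num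

lemma meas_rv (P : Set ℕ) (g : ℕ → ℝ) (x : ℕ) : Measurable fun ω => rv P g ω x :=
  (meas_mult signs P x).const_mul _

lemma meas_occ (P : Set ℕ) (g : ℕ → ℝ) {n : ℕ} (w : Fin n → Bool) (m : ℕ) :
    MeasurableSet {ω | Occurs (rv P g ω) w m} := by
  unfold Occurs
  rw [Set.ofPred_forall]
  exact MeasurableSet.iInter fun j => (meas_rv P g _) (measurableSet_singleton _)

/-- a table with the right values makes the pattern occur -/
lemma hit (P : Set ℕ) (R : Finset ℕ) (hRP : ∀ r ∈ R, r ∈ P) (hRp : ∀ r ∈ R, r.Prime)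
    (g : ℕ → ℝ) (hg : ∀ n, g n = 1 ∨ g n = -1) {T n K : ℕ} (q : Fin T × Fin n × Fin K → ℕ)
    (hq : Function.Injective q) (hqR : ∀ a, q a ∈ R) (t : Fin T) (c : Fin n → Fin K) (m : ℕ)
    (hm : Good R (fun j => q (t, j, c j)) m) (w : Fin n → Bool) (ω : ℕ → Bool)
    (h : Fin T × Fin n × Fin K → Bool)
    (hh : ∀ j : Fin n, h (t, j, c j) = true ↔
      rv P g ω (m + j + 1) ≠ if w j = true then 1 else -1) :
    Occurs (rv P g (flS (tab q h) ω)) w m := by
  intro j
  have h1 := mult_tab P q h (t, j, c j) (hRP _ (hqR _)) (m + j + 1)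
    (hm.fact (fun i => hRp _ (hqR _)) j) (fun b hb => hq ((hm j).2.2 _ (hqR b) hb)) ω
  have h2 := rv_sign P g hg ω (m + j + 1)
  have h3 : rv P g (flS (tab q h) ω) (m + j + 1) =
      (if h (t, j, c j) = true then -1 else 1) * rv P g ω (m + j + 1) := by
    unfold rv
    rw [h1]
    ring
  rw [h3]
  by_cases hc : h (t, j, c j) = true
  · have h4 := (hh j).1 hc
    rw [if_pos hc]
    rcases h2 with h5 | h5 <;> rw [h5] at h4 ⊢ <;> by_cases hw : w j = true
    · rw [if_pos hw] at h4
      exact absurd rfl h4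
    · rw [if_neg hw]
      norm_num
    · rw [if_pos hw]
      norm_num
    · rw [if_neg hw] at h4
      exact absurd rfl h4
  · rw [if_neg hc, one_mul]
    by_contra h6
    exact hc ((hh j).2 h6)

open Classical in
/-- **The probability of missing a pattern.** -/
theorem core (P : Set ℕ) (R : Finset ℕ) (hRP : ∀ r ∈ R, r ∈ P) (hRp : ∀ r ∈ R, r.Prime)
    (g : ℕ → ℝ) (hg : ∀ n, g n = 1 ∨ g n = -1) {T n : ℕ} (hn : 1 ≤ n)
    (q : Fin T × Fin n × Fin (5 * n) → ℕ) (hq : Function.Injective q) (hqR : ∀ a, q a ∈ R)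
    (m : Fin T → (Fin n → Fin (5 * n)) → ℕ)
    (hm : ∀ t c, Good R (fun j => q (t, j, c j)) (m t c)) (D : ℕ) (hD : ∀ r ∈ R, r ^ 2 ∣ D)
    (N : ℕ) (w : Fin n → Bool) :
    (cm {ω | ∀ t c, 2 ^ n * ((range N).filter fun l =>
      Occurs (rv P g ω) w (m t c + D * l)).card < N}).toReal ≤ (1 / 4) ^ T := by
  set A : Set (ℕ → Bool) := {ω | ∀ t c, 2 ^ n * ((range N).filter fun l =>
      Occurs (rv P g ω) w (m t c + D * l)).card < N} with hA
  have hmA : MeasurableSet A := by
    rw [hA, Set.ofPred_forall]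
    refine MeasurableSet.iInter fun t => ?_
    rw [Set.ofPred_forall]
    refine MeasurableSet.iInter fun c => ?_
    have h1 : Measurable fun ω : ℕ → Bool => ((range N).filter fun l =>
        Occurs (rv P g ω) w (m t c + D * l)).card := by
      simp only [Finset.card_filter]
      exact Finset.measurable_fun_sum _ fun l _ => Measurable.ite (meas_occ P g w _)
        measurable_const measurable_const
    exact h1 (MeasurableSet.of_discrete (s := {k : ℕ | 2 ^ n * k < N}))
  refine prob hmA q (univ : Finset (Fin T × Fin n × Fin (5 * n) → Bool)) (fun h => mem_univ _) _ ?_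
  intro ω B hB
  -- the popular targets
  have hpop : ∀ t c, ∃ u : Fin n → Bool, N ≤ 2 ^ n * ((range N).filter fun l =>
      ∀ j : Fin n, u j = true ↔ rv P g ω (m t c + D * l + j + 1) ≠ if w j = true then 1 else -1).card := by
    intro t c
    have h1 := Finset.exists_le_card_fiber_of_nsmul_le_card_of_maps_to (M := ℚ) (s := range N)
      (t := (univ : Finset (Fin n → Bool)))
      (f := fun l j => decide (rv P g ω (m t c + D * l + j + 1) ≠ if w j = true then 1 else -1))
      (b := (N : ℚ) / 2 ^ n) (fun _ _ => mem_univ _) univ_nonempty (by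
        rw [card_univ, card_range, Fintype.card_fun, Fintype.card_fin, Fintype.card_bool,
          nsmul_eq_mul]
        push_cast
        rw [mul_div_cancel₀]
        positivity)
    obtain ⟨u, _, hu⟩ := h1
    refine ⟨u, ?_⟩
    rw [div_le_iff₀ (by positivity)] at hu
    have h2 : ((range N).filter fun l => (fun j : Fin n => decide (rv P g ω (m t c + D * l + j + 1) ≠
        if w j = true then 1 else -1)) = u) ⊆ (range N).filter fun l =>
      ∀ j : Fin n, u j = true ↔ rv P g ω (m t c + D * l + j + 1) ≠ if w j = true then 1 else -1 := by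
      intro l hl
      rw [mem_filter] at hl ⊢
      refine ⟨hl.1, fun j => ?_⟩
      rw [← hl.2]
      exact decide_eq_true_iff
    have h3 := card_le_card h2
    have h4 : (N : ℚ) ≤ ((((range N).filter fun l =>
      ∀ j : Fin n, u j = true ↔ rv P g ω (m t c + D * l + j + 1) ≠
        if w j = true then 1 else -1).card : ℕ) : ℚ) * 2 ^ n := by
      refine hu.trans ?_
      have h5 : (((range N).filter fun l => (fun j : Fin n => decide (rv P g ω (m t c + D * l + j + 1) ≠
        if w j = true then 1 else -1)) = u).card : ℚ) ≤ (((range N).filter fun l =>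
      ∀ j : Fin n, u j = true ↔ rv P g ω (m t c + D * l + j + 1) ≠
        if w j = true then 1 else -1).card : ℚ) := by exact_mod_cast h3
      exact mul_le_mul_of_nonneg_right h5 (by positivity)
    have h6 : (N : ℚ) ≤ ((2 ^ n * ((range N).filter fun l =>
      ∀ j : Fin n, u j = true ↔ rv P g ω (m t c + D * l + j + 1) ≠
        if w j = true then 1 else -1).card : ℕ) : ℚ) := by
      push_cast
      linarith
    exact_mod_cast h6
  choose u hu using hpop
  have h1 : B.card ≤ ((univ : Finset (Fin T → Fin n → Fin (5 * n) → Bool)).filter (fun h =>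
      ∀ t, ∀ p : Fin n → Fin (5 * n), ∃ j, h t j (p j) ≠ u t p j)).card := by
    refine Finset.card_le_card_of_injOn (fun h t j k => h (t, j, k)) ?_ ?_
    · intro h hh
      simp only [coe_filter, mem_univ, true_and, Set.mem_ofPred_eq]
      intro t c
      by_contra hno
      push Not at hno
      have h2 := hB h hh t c
      have h3 : ((range N).filter fun l =>
          ∀ j : Fin n, u t c j = true ↔ rv P g ω (m t c + D * l + j + 1) ≠
            if w j = true then 1 else -1) ⊆
          (range N).filter fun l => Occurs (rv P g (flS (tab q h) ω)) w (m t c + D * l) := by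
        intro l hl
        rw [mem_filter] at hl ⊢
        refine ⟨hl.1, ?_⟩
        refine hit P R hRP hRp g hg q hq hqR t c _ ((hm t c).add (fun j => hqR _) hD l) w ω h ?_
        intro j
        rw [hno j]
        exact hl.2 j
      have h4 := card_le_card h3
      have h5 := Nat.mul_le_mul_left (2 ^ n) h4
      have h6 := hu t c
      omega
    · intro h _ h' _ he
      funext a
      obtain ⟨t, j, k⟩ := a
      exact congrFun (congrFun (congrFun he t) j) k
  have h2 := combT T n hn u
  have h3 : (B.card : ℝ) ≤ (1 / 4) ^ T * 2 ^ (T * (n * (5 * n))) := le_trans (by exact_mod_cast h1) h2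
  refine h3.trans (le_of_eq ?_)
  rw [card_univ, Fintype.card_fun, Fintype.card_prod, Fintype.card_prod, Fintype.card_fin,
    Fintype.card_fin, Fintype.card_fin, Fintype.card_bool]
  push_cast
  rfl

/-- an injective list of primes in a finite set of the right size, with good starting points -/
theorem points (R : Finset ℕ) (hRp : ∀ r ∈ R, r.Prime) (T n : ℕ)
    (hc : R.card = T * (n * (5 * n))) (hR2 : ∀ r ∈ R, n * (R.card + 1) + 1 ≤ r) :
    ∃ (q : Fin T × Fin n × Fin (5 * n) → ℕ) (m : Fin T → (Fin n → Fin (5 * n)) → ℕ),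
      Function.Injective q ∧ (∀ a, q a ∈ R) ∧
      (∀ t c, Good R (fun j => q (t, j, c j)) (m t c)) ∧
      ∀ t c, m t c < (n * (R.card + 1) + 1) * ∏ j, q (t, j, c j) := by
  have h1 : Fintype.card (Fin T × Fin n × Fin (5 * n)) = R.card := by
    rw [Fintype.card_prod, Fintype.card_prod, Fintype.card_fin, Fintype.card_fin, Fintype.card_fin,
      hc]
  have h2 : Fintype.card (Fin T × Fin n × Fin (5 * n)) = Fintype.card R := by
    rw [h1, Fintype.card_coe]
  let e := Fintype.equivOfCardEq h2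
  have hR1 : ∀ r ∈ R, n < r := by
    intro r hr
    have h3 := hR2 r hr
    have h4 : 0 < R.card := card_pos.2 ⟨r, hr⟩
    nlinarith
  have h3 : ∀ t : Fin T, ∀ c : Fin n → Fin (5 * n), ∃ m, m < (n * (R.card + 1) + 1) *
      ∏ j, (e (t, j, c j) : ℕ) ∧ Good R (fun j => (e (t, j, c j) : ℕ)) m := by
    intro t c
    refine exists_good R hRp n hR1 hR2 _ (fun j => (e (t, j, c j)).2) ?_
    intro j j' hjj
    have h4 := e.injective (Subtype.ext hjj)
    simp only [Prod.mk.injEq, true_and] at h4
    exact h4.1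
  choose m hm1 hm2 using h3
  exact ⟨fun a => e a, m, fun a b hab => e.injective (Subtype.ext hab), fun a => (e a).2, hm2, hm1⟩

/-- **Quantitative form.** Few signs miss a pattern of length `n` in the first `x ^ (n + 1)`
positions. -/
theorem quant (P : Set ℕ) (g : ℕ → ℝ) (hg : ∀ n, g n = 1 ∨ g n = -1) (n : ℕ) (hn : 1 ≤ n)
    (x : ℕ) (S : Finset ℕ) (hSP : ∀ r ∈ S, r ∈ P ∧ r.Prime ∧ 12 * n ^ 4 < r ∧ r ≤ x)
    (hS : 10 * n ^ 3 ≤ S.card) :
    (cm {ω | ∃ w : Fin n → Bool, ∀ m < x ^ (n + 1), ¬ Occurs (rv P g ω) w m}).toReal ≤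
      (1 / 8) ^ n := by
  classical
  obtain ⟨R, hRS, hRc⟩ := Finset.exists_subset_card_eq hS
  have hRc' : R.card = (2 * n) * (n * (5 * n)) := by
    rw [hRc]
    ring
  have hR2 : ∀ r ∈ R, n * (R.card + 1) + 1 ≤ r := by
    intro r hr
    have h1 := (hSP r (hRS hr)).2.2.1
    rw [hRc]
    have h2 : n * (10 * n ^ 3 + 1) + 1 = 10 * n ^ 4 + n + 1 := by ring
    rw [h2]
    have h3 : n ≤ n ^ 4 := Nat.le_self_pow (by norm_num) n
    omega
  obtain ⟨q, m, hq, hqR, hm, hmlt⟩ := points R (fun r hr => (hSP r (hRS hr)).2.1) (2 * n) n hRc' hR2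
  have hlt : ∀ t c, m t c < x ^ (n + 1) := by
    intro t c
    refine (hmlt t c).trans_le ?_
    have h1 : n * (R.card + 1) + 1 ≤ x := by
      have h2 : 0 < R.card := by
        rw [hRc]
        positivity
      obtain ⟨r, hr⟩ := card_pos.1 h2
      exact (hR2 r hr).trans (hSP r (hRS hr)).2.2.2
    have h3 : ∏ j : Fin n, q (t, j, c j) ≤ x ^ n := by
      calc ∏ j : Fin n, q (t, j, c j) ≤ ∏ _j : Fin n, x :=
            Finset.prod_le_prod' fun j _ => (hSP _ (hRS (hqR _))).2.2.2
        _ = x ^ n := by simp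
    calc (n * (R.card + 1) + 1) * ∏ j, q (t, j, c j) ≤ x * x ^ n := Nat.mul_le_mul h1 h3
      _ = x ^ (n + 1) := by ring
  have hsub : {ω | ∃ w : Fin n → Bool, ∀ m < x ^ (n + 1), ¬ Occurs (rv P g ω) w m} ⊆
      ⋃ w ∈ (univ : Finset (Fin n → Bool)), {ω | ∀ t c, 2 ^ n * ((range 1).filter fun l =>
      Occurs (rv P g ω) w (m t c + (∏ r ∈ R, r ^ 2) * l)).card < 1} := by
    intro ω hω
    obtain ⟨w, hw⟩ := hω
    simp only [Set.mem_iUnion, mem_univ, exists_const]
    refine ⟨w, fun t c => ?_⟩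
    have h1 : (range 1).filter (fun l =>
        Occurs (rv P g ω) w (m t c + (∏ r ∈ R, r ^ 2) * l)) = ∅ := by
      refine Finset.filter_eq_empty_iff.2 fun l hl => ?_
      have hl0 : l = 0 := by simpa using hl
      rw [hl0, mul_zero, add_zero]
      exact hw _ (hlt t c)
    rw [h1]
    simp
  have h1 : cm {ω | ∃ w : Fin n → Bool, ∀ m < x ^ (n + 1), ¬ Occurs (rv P g ω) w m} ≤
      ∑ w ∈ (univ : Finset (Fin n → Bool)), cm {ω | ∀ t c, 2 ^ n * ((range 1).filter fun l =>
      Occurs (rv P g ω) w (m t c + (∏ r ∈ R, r ^ 2) * l)).card < 1} :=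
    (measure_mono hsub).trans (measure_biUnion_finset_le _ _)
  have h2 := ENNReal.toReal_mono (by
    refine (ENNReal.sum_lt_top.2 fun w _ => measure_lt_top _ _).ne) h1
  refine h2.trans ?_
  rw [ENNReal.toReal_sum fun w _ => (measure_lt_top _ _).ne]
  have h3 : ∀ w ∈ (univ : Finset (Fin n → Bool)), (cm {ω | ∀ t c, 2 ^ n * ((range 1).filter fun l =>
      Occurs (rv P g ω) w (m t c + (∏ r ∈ R, r ^ 2) * l)).card < 1}).toReal ≤ (1 / 4) ^ (2 * n) := by
    intro w _
    refine core P R (fun r hr => (hSP r (hRS hr)).1) (fun r hr => (hSP r (hRS hr)).2.1) g hg hn q hq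
      hqR m hm _ (fun r hr => ?_) 1 w
    exact Finset.dvd_prod_of_mem (fun r => r ^ 2) hr
  refine (Finset.sum_le_sum h3).trans (le_of_eq ?_)
  rw [Finset.sum_const, card_univ, Fintype.card_fun, Fintype.card_fin, Fintype.card_bool,
    nsmul_eq_mul, pow_mul]
  push_cast
  rw [← mul_pow]
  norm_num

end Pool.Agent.Q163.BC
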