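import Pool.Agent.Q163.BC.Core2

/-! Polynomials: local data and the Chinese remainder theorem. -/

set_option autoImplicit false

namespace Pool.Agent.Q163.BC

open Finset Filter Topology Polynomial

/-- Bezout over the integers -/
lemma bezout (u v : ℤ[X]) (h : IsCoprime (u.map (Int.castRingHom ℚ)) (v.map (Int.castRingHom ℚ))) :
    ∃ (A B : ℤ[X]) (c : ℤ), c ≠ 0 ∧ A * u + B * v = C c := by
  obtain ⟨a, b, hab⟩ := h
  obtain ⟨da, hda, ha⟩ := IsLocalization.integerNormalization_spec (nonZeroDivisors ℤ) a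
  obtain ⟨db, hdb, hb⟩ := IsLocalization.integerNormalization_spec (nonZeroDivisors ℤ) b
  have hda0 : da ≠ 0 := nonZeroDivisors.ne_zero hda
  have hdb0 : db ≠ 0 := nonZeroDivisors.ne_zero hdb
  set A0 := IsLocalization.integerNormalization (nonZeroDivisors ℤ) a
  set B0 := IsLocalization.integerNormalization (nonZeroDivisors ℤ) b
  refine ⟨C db * A0, C da * B0, da * db, mul_ne_zero hda0 hdb0, ?_⟩
  have hinj : Function.Injective (Polynomial.map (Int.castRingHom ℚ)) :=
    Polynomial.map_injective _ Int.cast_injective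
  apply hinj
  have ha' : A0.map (Int.castRingHom ℚ) = C (da : ℚ) * a := by
    have h1 : A0.map (Int.castRingHom ℚ) = da • a := ha
    rw [h1, Algebra.smul_def]
    rfl
  have hb' : B0.map (Int.castRingHom ℚ) = C (db : ℚ) * b := by
    have h1 : B0.map (Int.castRingHom ℚ) = db • b := hb
    rw [h1, Algebra.smul_def]
    rfl
  have hC : ∀ z : ℤ, (C z : ℤ[X]).map (Int.castRingHom ℚ) = C (z : ℚ) := fun z => by
    rw [Polynomial.map_C]
    rfl
  rw [Polynomial.map_add, Polynomial.map_mul, Polynomial.map_mul, Polynomial.map_mul,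
    Polynomial.map_mul, hC, hC, hC, ha', hb', Int.cast_mul, C_mul]
  linear_combination (C (da : ℚ) * C (db : ℚ)) * hab

lemma eval_congr (u : ℤ[X]) {a b N : ℤ} (h : N ∣ a - b) : N ∣ u.eval a ↔ N ∣ u.eval b := by
  have h1 := h.trans (sub_dvd_eval_sub a b u)
  exact ⟨fun h2 => (dvd_sub_right h2).1 h1, fun h2 => (dvd_sub_left h2).1 h1⟩

/-- coprime polynomials have no common root modulo a large prime -/
lemma no_common (u v : ℤ[X])
    (h : IsCoprime (u.map (Int.castRingHom ℚ)) (v.map (Int.castRingHom ℚ))) :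
    ∀ᶠ r : ℕ in atTop, ∀ x : ℤ, (r : ℤ) ∣ u.eval x → ¬ (r : ℤ) ∣ v.eval x := by
  obtain ⟨A, B, c, hc, hAB⟩ := bezout u v h
  filter_upwards [eventually_gt_atTop c.natAbs] with r hr x h1 h2
  have h3 : A.eval x * u.eval x + B.eval x * v.eval x = c := by
    have h4 := congrArg (Polynomial.eval x) hAB
    simpa only [eval_add, eval_mul, eval_C] using h4
  have h4 : (r : ℤ) ∣ c := by
    rw [← h3]
    exact dvd_add (h1.mul_left _) (h2.mul_left _)
  have h5 := Int.natCast_dvd.1 h4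
  have h6 := Nat.le_of_dvd (Int.natAbs_pos.2 hc) h5
  omega

/-- simple roots -/
lemma simple_root (u : ℤ[X]) (h : (u.map (Int.castRingHom ℚ)).Separable) :
    ∀ᶠ r : ℕ in atTop, ∀ x : ℤ, (r : ℤ) ∣ u.eval x →
      ∃ x' : ℤ, (r : ℤ) ∣ x' - x ∧ (r : ℤ) ∣ u.eval x' ∧ ¬ (r : ℤ) ^ 2 ∣ u.eval x' := by
  have h1 : IsCoprime (u.map (Int.castRingHom ℚ)) ((derivative u).map (Int.castRingHom ℚ)) := by
    rw [← derivative_map]
    exact (separable_def _).1 h
  filter_upwards [no_common u (derivative u) h1, eventually_gt_atTop 0] with r hr hr0 x hx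
  by_cases h2 : (r : ℤ) ^ 2 ∣ u.eval x
  · refine ⟨x + r, by simp, ?_, ?_⟩
    · exact (eval_congr u (by simp)).2 hx
    · obtain ⟨k, hk⟩ := u.binomExpansion x (r : ℤ)
      intro h3
      rw [hk] at h3
      have h4 : (r : ℤ) ^ 2 ∣ eval x (derivative u) * r := by
        have h5 : eval x (derivative u) * r =
            (eval x u + eval x (derivative u) * r + k * (r : ℤ) ^ 2) - eval x u - k * (r : ℤ) ^ 2 := by
          ring
        rw [h5]
        exact dvd_sub (dvd_sub h3 h2) (dvd_mul_left _ _)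
      rw [sq] at h4
      have h6 := Int.dvd_of_mul_dvd_mul_right (by exact_mod_cast hr0.ne') h4
      exact hr x hx h6
  · exact ⟨x, by simp, hx, h2⟩

/-- a point where no polynomial vanishes -/
lemma free_point {ι : Type*} [Fintype ι] (F : ι → ℤ[X]) (hF : ∀ i, F i ≠ 0) :
    ∀ᶠ r : ℕ in atTop, r.Prime → ∃ y : ℕ, ¬ r ∣ y ∧ ∀ i, ¬ (r : ℤ) ∣ (F i).eval (y : ℤ) := by
  set V : ℤ[X] := X * ∏ i, F i with hV
  have hV0 : V ≠ 0 := mul_ne_zero X_ne_zero (Finset.prod_ne_zero_iff.2 fun i _ => hF i)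
  filter_upwards [eventually_gt_atTop V.leadingCoeff.natAbs, eventually_gt_atTop V.natDegree]
    with r hr1 hr2 hrp
  have : Fact r.Prime := ⟨hrp⟩
  have h1 : V.map (Int.castRingHom (ZMod r)) ≠ 0 := by
    intro h2
    have h3 : (V.map (Int.castRingHom (ZMod r))).coeff V.natDegree = 0 := by rw [h2, coeff_zero]
    rw [coeff_map, eq_intCast, ZMod.intCast_zmod_eq_zero_iff_dvd] at h3
    have h4 := Int.natCast_dvd.1 h3
    have h5 : 0 < V.leadingCoeff.natAbs := Int.natAbs_pos.2 (leadingCoeff_ne_zero.2 hV0)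
    have h6 := Nat.le_of_dvd h5 h4
    omega
  obtain ⟨z, hz⟩ := exists_eval_ne_zero_of_natDegree_lt_card _ h1 (by
    rw [Cardinal.mk_fintype, ZMod.card]
    exact_mod_cast lt_of_le_of_lt natDegree_map_le hr2)
  have h2 : (((V.eval (z.val : ℤ) : ℤ)) : ZMod r) ≠ 0 := by
    intro h3
    apply hz
    have h4 : eval ((z.val : ℤ) : ZMod r) (V.map (Int.castRingHom (ZMod r))) = ((V.eval (z.val : ℤ) : ℤ) : ZMod r) := by
      rw [eval_intCast_map, eq_intCast]
      simp only [Int.cast_id]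
    have h5 : (((z.val : ℕ) : ℤ) : ZMod r) = z := by
      push_cast
      exact ZMod.natCast_zmod_val z
    rw [h5] at h4
    rw [h4, h3]
  rw [Ne, ZMod.intCast_zmod_eq_zero_iff_dvd] at h2
  refine ⟨z.val, fun h3 => h2 ?_, fun i h3 => h2 ?_⟩
  · rw [hV, eval_mul, eval_X]
    exact (Int.natCast_dvd_natCast.2 h3).mul_right _
  · rw [hV, eval_mul, eval_prod]
    exact (h3.trans (Finset.dvd_prod_of_mem (fun i => (F i).eval (z.val : ℤ)) (mem_univ i))).mul_left _

/-- the residue `x` is a simple root of `F j` modulo `r` and no root of the other polynomials -/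
def Root {n : ℕ} (F H : Fin n → ℤ[X]) (r : ℕ) (j : Fin n) (x : ℕ) : Prop :=
  (r : ℤ) ∣ (F j).eval (x : ℤ) ∧ ¬ (r : ℤ) ^ 2 ∣ (F j).eval (x : ℤ) ∧
    (∀ i, i ≠ j → ¬ (r : ℤ) ∣ (F i).eval (x : ℤ)) ∧ ((F j).eval 0 ≠ 0 → ¬ r ∣ x) ∧
    ∀ i, ¬ (r : ℤ) ∣ (H i).eval (x : ℤ)

/-- the residue `y` is not zero and not a root modulo `r` -/
def Free {n : ℕ} (F H : Fin n → ℤ[X]) (r : ℕ) (y : ℕ) : Prop :=
  ¬ r ∣ y ∧ (∀ i, ¬ (r : ℤ) ∣ (F i).eval (y : ℤ)) ∧ ∀ i, ¬ (r : ℤ) ∣ (H i).eval (y : ℤ)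

theorem local_data {n : ℕ} (F H : Fin n → ℤ[X])
    (hsep : ∀ i, ((F i).map (Int.castRingHom ℚ)).Separable)
    (hcop : ∀ i j, i ≠ j → IsCoprime ((F i).map (Int.castRingHom ℚ)) ((F j).map (Int.castRingHom ℚ)))
    (hH : ∀ i, H i ≠ 0)
    (hFH : ∀ i j, IsCoprime ((F i).map (Int.castRingHom ℚ)) ((H j).map (Int.castRingHom ℚ))) :
    ∀ᶠ r : ℕ in atTop, r.Prime → (∃ y, Free F H r y) ∧
      ∀ j, (∃ x : ℤ, (r : ℤ) ∣ (F j).eval x) → ∃ x, Root F H r j x := by
  have h0 : ∀ i, F i ≠ 0 := by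
    intro i h
    have h1 := (hsep i).ne_zero
    rw [h, Polynomial.map_zero] at h1
    exact h1 rfl
  have h1 : ∀ᶠ r : ℕ in atTop, ∀ i j, i ≠ j → ∀ x : ℤ, (r : ℤ) ∣ (F i).eval x →
      ¬ (r : ℤ) ∣ (F j).eval x := by
    rw [eventually_all]
    intro i
    rw [eventually_all]
    intro j
    by_cases hij : i = j
    · exact Eventually.of_forall fun r h => absurd hij h
    · filter_upwards [no_common (F i) (F j) (hcop i j hij)] with r hr _
      exact hr
  have h2 : ∀ᶠ r : ℕ in atTop, ∀ i, ∀ x : ℤ, (r : ℤ) ∣ (F i).eval x →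
      ∃ x' : ℤ, (r : ℤ) ∣ x' - x ∧ (r : ℤ) ∣ (F i).eval x' ∧ ¬ (r : ℤ) ^ 2 ∣ (F i).eval x' := by
    rw [eventually_all]
    exact fun i => simple_root (F i) (hsep i)
  have h3 : ∀ᶠ r : ℕ in atTop, ∀ i, (F i).eval 0 ≠ 0 → ¬ (r : ℤ) ∣ (F i).eval 0 := by
    rw [eventually_all]
    intro i
    filter_upwards [eventually_gt_atTop ((F i).eval 0).natAbs] with r hr h4 h5
    have h6 := Nat.le_of_dvd (Int.natAbs_pos.2 h4) (Int.natCast_dvd.1 h5)
    omega
  have h4 : ∀ᶠ r : ℕ in atTop, ∀ i j, ∀ x : ℤ, (r : ℤ) ∣ (F i).eval x →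
      ¬ (r : ℤ) ∣ (H j).eval x := by
    rw [eventually_all]
    intro i
    rw [eventually_all]
    exact fun j => no_common (F i) (H j) (hFH i j)
  have h5 := free_point (Sum.elim F H) (fun i => by
    rcases i with i | i
    · exact h0 i
    · exact hH i)
  filter_upwards [h1, h2, h3, h4, h5, eventually_gt_atTop 0] with r hr1 hr2 hr3 hr6 hr4 hr5 hrp
  refine ⟨?_, fun j hj => ?_⟩
  · obtain ⟨y, hy1, hy2⟩ := hr4 hrp
    exact ⟨y, hy1, fun i => hy2 (Sum.inl i), fun i => hy2 (Sum.inr i)⟩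
  obtain ⟨x, hx⟩ := hj
  obtain ⟨x', hx1, hx2, hx3⟩ := hr2 j x hx
  have hrz : (0 : ℤ) < (r : ℤ) ^ 2 := by positivity
  set a : ℕ := (x' % (r : ℤ) ^ 2).toNat with ha
  have ha' : (a : ℤ) = x' % (r : ℤ) ^ 2 := Int.toNat_of_nonneg (Int.emod_nonneg _ hrz.ne')
  have hd2 : (r : ℤ) ^ 2 ∣ (a : ℤ) - x' := by
    rw [ha']
    exact Int.ModEq.dvd (Int.mod_modEq x' _).symm
  have hd1 : (r : ℤ) ∣ (a : ℤ) - x' := (dvd_pow_self _ two_ne_zero).trans hd2
  have hra : (r : ℤ) ∣ (F j).eval (a : ℤ) := (eval_congr (F j) hd1).2 hx2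
  refine ⟨a, hra, fun h => hx3 ((eval_congr (F j) hd2).1 h), fun i hi h => hr1 j i hi.symm a hra h,
    fun h4 h5 => hr3 j h4 ?_, fun i h => hr6 j i a hra h⟩
  refine (eval_congr (F j) ?_).1 hra
  simpa using Int.natCast_dvd_natCast.2 h5

/-- the natural numbers `|F j (m) H j (m)|` -/
noncomputable def LF {n : ℕ} (F H : Fin n → ℤ[X]) (j : Fin n) (m : ℕ) : ℕ :=
  ((F j * H j).eval (m : ℤ)).natAbs

/-- **The residue classes.** -/
theorem classes {n T K : ℕ} (F H : Fin n → ℤ[X]) (q : Fin T × Fin n × Fin K → ℕ)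
    (hq : Function.Injective q) (hqp : ∀ b, (q b).Prime) (hfree : ∀ b, ∃ y, Free F H (q b) y)
    (hroot : ∀ t j k, ∃ x, Root F H (q (t, j, k)) j x) (Q a : ℕ) (hQ : 0 < Q) (hqQ : ∀ b, Q < q b) :
    ∃ D : ℕ, 0 < D ∧ Q ∣ D ∧ ∀ t c, ∃ k : ℕ, (∀ m, m ≡ k [MOD D] → m ≡ a [MOD Q] ∧ Fit q (LF F H) t c m) ∧
      ((∀ j, (F j).eval 0 ≠ 0) → Nat.Coprime a Q → Nat.Coprime k D) := by
  classical
  choose y hy using hfree
  choose x hx using hroot
  have hcop : Set.Pairwise (↑(univ : Finset (Fin T × Fin n × Fin K)))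
      (Function.onFun Nat.Coprime fun b => q b ^ 2) := by
    intro b _ b' _ hb
    refine Nat.Coprime.pow _ _ ?_
    exact (Nat.coprime_primes (hqp b) (hqp b')).2 fun h => hb (hq h)
  set D0 : ℕ := ∏ b, q b ^ 2 with hD0
  have hD0pos : 0 < D0 := Finset.prod_pos fun b _ => pow_pos (hqp b).pos 2
  have hcQ : Nat.Coprime Q D0 := by
    refine Nat.Coprime.prod_right fun b _ => Nat.Coprime.pow_right 2 ?_
    exact (Nat.coprime_of_lt_prime hQ.ne' (hqQ b) (hqp b)).symm
  refine ⟨Q * D0, Nat.mul_pos hQ hD0pos, dvd_mul_right _ _, fun t c => ?_⟩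
  -- the residues
  let res : Fin T × Fin n × Fin K → ℕ := fun b =>
    if b.1 = t ∧ b.2.2 = c b.2.1 then x b.1 b.2.1 b.2.2 else y b
  let X := Nat.chineseRemainderOfFinset res (fun b => q b ^ 2) univ
    (fun b _ => pow_ne_zero 2 (hqp b).ne_zero) hcop
  let Y := Nat.chineseRemainder hcQ a X.1
  have hres : ∀ m, m ≡ Y.1 [MOD Q * D0] → ∀ b, m ≡ res b [MOD q b ^ 2] := by
    intro m hm b
    have h1 : m ≡ Y.1 [MOD D0] := hm.of_dvd (dvd_mul_left _ _)
    have h2 : m ≡ X.1 [MOD D0] := h1.trans Y.2.2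
    have h3 : m ≡ X.1 [MOD q b ^ 2] :=
      h2.of_dvd (Finset.dvd_prod_of_mem (fun b => q b ^ 2) (mem_univ b))
    exact h3.trans (X.2 b (mem_univ b))
  have hdv : ∀ m, m ≡ Y.1 [MOD Q * D0] → ∀ b, ((q b : ℤ)) ^ 2 ∣ (m : ℤ) - (res b : ℤ) := by
    intro m hm b
    have h1 := (Nat.modEq_iff_dvd.1 (hres m hm b).symm)
    push_cast at h1
    exact h1
  refine ⟨Y.1, fun m hm => ⟨?_, fun j => ⟨?_, ?_⟩⟩, fun h0 ha => ?_⟩
  · exact (hm.of_dvd (dvd_mul_right _ _)).trans Y.2.1
  · -- the exponent is one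
    have h1 := hdv m hm (t, j, c j)
    have h2 : res (t, j, c j) = x t j (c j) := by simp [res]
    rw [h2] at h1
    obtain ⟨g1, g2, g3, g4, g5⟩ := hx t j (c j)
    have h3 : ((q (t, j, c j) : ℕ) : ℤ) ∣ (F j).eval (m : ℤ) :=
      (eval_congr (F j) ((dvd_pow_self _ two_ne_zero).trans h1)).2 g1
    have h4 : ¬ ((q (t, j, c j) : ℕ) : ℤ) ^ 2 ∣ (F j).eval (m : ℤ) := fun h =>
      g2 ((eval_congr (F j) h1).1 h)
    have h4' : ¬ ((q (t, j, c j) : ℕ) : ℤ) ∣ (H j).eval (m : ℤ) := fun h =>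
      g5 j ((eval_congr (H j) ((dvd_pow_self _ two_ne_zero).trans h1)).1 h)
    have hpz : Prime ((q (t, j, c j) : ℕ) : ℤ) := Nat.prime_iff_prime_int.1 (hqp _)
    have h5 : q (t, j, c j) ∣ LF F H j m := by
      refine Int.natCast_dvd.1 ?_
      rw [eval_mul]
      exact h3.mul_right _
    have h6 : ¬ q (t, j, c j) ^ 2 ∣ LF F H j m := by
      intro h
      apply h4
      have h7 := Int.natCast_dvd.2 h
      push_cast at h7
      rw [eval_mul] at h7
      exact ((hpz.coprime_iff_not_dvd.2 h4').pow_left).dvd_of_dvd_mul_right h7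
    have h0 : LF F H j m ≠ 0 := by
      intro h
      apply h6
      rw [h]
      exact dvd_zero _
    have h7 := (hqp (t, j, c j)).dvd_iff_one_le_factorization h0 |>.1 h5
    have h8 : ¬ 2 ≤ (LF F H j m).factorization (q (t, j, c j)) := fun h =>
      h6 (((hqp (t, j, c j)).pow_dvd_iff_le_factorization h0).2 h)
    omega
  · intro b hb
    have hb0 : ((q b : ℕ) : ℤ) ∣ (F j * H j).eval (m : ℤ) := Int.natCast_dvd.2 hb
    rw [eval_mul] at hb0
    have h1 := (dvd_pow_self ((q b : ℕ) : ℤ) two_ne_zero).trans (hdv m hm b)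
    have hpz : Prime ((q b : ℕ) : ℤ) := Nat.prime_iff_prime_int.1 (hqp _)
    have hHres : ¬ ((q b : ℕ) : ℤ) ∣ (H j).eval (res b : ℤ) := by
      obtain ⟨t', i, k⟩ := b
      by_cases hcase : t' = t ∧ k = c i
      · have h5 : res (t', i, k) = x t' i k := by
          simp only [res]
          rw [if_pos hcase]
        rw [h5]
        exact (hx t' i k).2.2.2.2 j
      · have h5 : res (t', i, k) = y (t', i, k) := by
          simp only [res]
          rw [if_neg hcase]
        rw [h5]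
        exact (hy (t', i, k)).2.2 j
    have hb' : ((q b : ℕ) : ℤ) ∣ (F j).eval (m : ℤ) := by
      rcases hpz.dvd_or_dvd hb0 with h | h
      · exact h
      · exact absurd ((eval_congr (H j) h1).1 h) hHres
    have h2 : ((q b : ℕ) : ℤ) ∣ (F j).eval (res b : ℤ) := (eval_congr (F j) h1).1 hb'
    obtain ⟨t', i, k⟩ := b
    by_cases hcase : t' = t ∧ k = c i
    · obtain ⟨h3, h4⟩ := hcase
      subst h3 h4
      have h5 : res (t', i, c i) = x t' i (c i) := by simp [res]
      rw [h5] at h2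
      by_cases hij : j = i
      · rw [hij]
      · exact absurd h2 ((hx t' i (c i)).2.2.1 j hij)
    · have h5 : res (t', i, k) = y (t', i, k) := by
        simp only [res]
        rw [if_neg hcase]
      rw [h5] at h2
      exact absurd h2 ((hy (t', i, k)).2.1 j)
  · refine Nat.Coprime.mul_right ?_ ?_
    · have h1 : Y.1 ≡ a [MOD Q] := Y.2.1
      rw [Nat.coprime_iff_gcd_eq_one, h1.gcd_eq]
      exact ha
    · refine Nat.Coprime.prod_right fun b _ => Nat.Coprime.pow_right 2 ?_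
      refine ((hqp b).coprime_iff_not_dvd.2 ?_).symm
      intro h
      have h1 := (hres Y.1 (Nat.ModEq.refl _) b).of_dvd (dvd_pow_self (q b) two_ne_zero)
      have h2 : q b ∣ res b := (h1.dvd_iff dvd_rfl).1 h
      obtain ⟨t', i, k⟩ := b
      by_cases hcase : t' = t ∧ k = c i
      · have h5 : res (t', i, k) = x t' i k := by
          simp only [res]
          rw [if_pos hcase]
        rw [h5] at h2
        exact (hx t' i k).2.2.2.1 (h0 i) h2
      · have h5 : res (t', i, k) = y (t', i, k) := by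
          simp only [res]
          rw [if_neg hcase]
        rw [h5] at h2
        exact (hy (t', i, k)).1 h2

/-- an injective choice from infinite sets -/
theorem inj_choice {ι : Type*} (A : ι → Set ℕ) (hA : ∀ i, (A i).Infinite) (s : Finset ι) :
    ∃ f : ι → ℕ, (∀ i ∈ s, f i ∈ A i) ∧ Set.InjOn f s := by
  classical
  induction s using Finset.induction_on with
  | empty => exact ⟨fun _ => 0, by simp, by simp⟩
  | insert i s hi ih =>
    obtain ⟨f, hf1, hf2⟩ := ih
    obtain ⟨a, ha1, ha2⟩ := (hA i).exists_notMem_finset (s.image f)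
    refine ⟨Function.update f i a, ?_, ?_⟩
    · intro j hj
      rcases mem_insert.1 hj with h | h
      · rw [h, Function.update_self]
        exact ha1
      · have hji : j ≠ i := fun h' => hi (h' ▸ h)
        rw [Function.update_of_ne hji]
        exact hf1 j h
    · intro j hj k hk hjk
      rw [mem_coe, mem_insert] at hj hk
      rcases hj with h | h <;> rcases hk with h' | h'
      · rw [h, h']
      · have hki : k ≠ i := fun h'' => hi (h'' ▸ h')
        rw [h, Function.update_self, Function.update_of_ne hki] at hjk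
        exact absurd (mem_image.2 ⟨k, h', hjk.symm⟩) ha2
      · have hji : j ≠ i := fun h'' => hi (h'' ▸ h)
        rw [h', Function.update_self, Function.update_of_ne hji] at hjk
        exact absurd (mem_image.2 ⟨j, h, hjk⟩) ha2
      · have hji : j ≠ i := fun h'' => hi (h'' ▸ h)
        have hki : k ≠ i := fun h'' => hi (h'' ▸ h')
        rw [Function.update_of_ne hji, Function.update_of_ne hki] at hjk
        exact hf2 h h' hjk

end Pool.Agent.Q163.BC
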