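import Pool.Agent.Q163.BC.Dens

/-! Residue classes and finite changes. -/

set_option autoImplicit false

namespace Pool.Agent.Q163.BC

open Finset Filter Topology

/-- the long pattern which contains `w` at starting points of all residue classes -/
def big (q : ℕ) {n : ℕ} (w : Fin n → Bool) (i : Fin (q * (1 + q * n))) : Bool :=
  if h : (i : ℕ) % (1 + q * n) < n then w ⟨_, h⟩ else true

lemma occ_big (f : ℕ → ℝ) (q : ℕ) {n : ℕ} (w : Fin n → Bool) (m : ℕ)
    (h : Occurs f (big q w) m) (i : ℕ) (hi : i < q) : Occurs f w (m + i * (1 + q * n)) := by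
  intro j
  have hq : 1 ≤ q := by omega
  have hj : (j : ℕ) < 1 + q * n := by
    have h1 := j.2
    nlinarith
  have hlt : i * (1 + q * n) + j < q * (1 + q * n) := by
    have h1 : (i + 1) * (1 + q * n) ≤ q * (1 + q * n) := Nat.mul_le_mul_right _ hi
    have h2 : (i + 1) * (1 + q * n) = i * (1 + q * n) + (1 + q * n) := by ring
    omega
  have h1 := h ⟨i * (1 + q * n) + j, hlt⟩
  have h2 : (i * (1 + q * n) + j) % (1 + q * n) = j := by
    rw [Nat.mul_comm, Nat.mul_add_mod, Nat.mod_eq_of_lt hj]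
  have h3 : big q w ⟨i * (1 + q * n) + j, hlt⟩ = w j := by
    unfold big
    simp only [h2, j.2, dif_pos]
  rw [h3] at h1
  have h4 : m + i * (1 + q * n) + j + 1 = m + (i * (1 + q * n) + j) + 1 := by ring
  rw [h4]
  exact h1

lemma exists_shift (q n a m : ℕ) (ha : a < q) : ∃ i < q, (m + i * (1 + q * n)) % q = a := by
  refine ⟨(a + (q - m % q)) % q, Nat.mod_lt _ (by omega), ?_⟩
  have hm : m % q < q := Nat.mod_lt _ (by omega)
  set i := (a + (q - m % q)) % q with hi
  have h1 : m + i * (1 + q * n) = m + i + q * (i * n) := by ring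
  rw [h1, Nat.add_mul_mod_self_left, hi, Nat.add_mod, Nat.mod_mod, ← Nat.add_mod]
  have h2 : m + (a + (q - m % q)) = a + q * (m / q + 1) := by
    have h3 := Nat.div_add_mod m q
    rw [Nat.mul_add, Nat.mul_one]
    omega
  rw [h2, Nat.add_mul_mod_self_left, Nat.mod_eq_of_lt ha]

/-- occurrences in every residue class -/
theorem occ_class (f : ℕ → ℝ) (h : ∀ n, ∀ w : Fin n → Bool, ∃ m, Occurs f w m) (n : ℕ)
    (w : Fin n → Bool) (q a : ℕ) (ha : a < q) : ∃ m, Occurs f w m ∧ m % q = a := by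
  obtain ⟨m, hm⟩ := h _ (big q w)
  obtain ⟨i, hi, h1⟩ := exists_shift q n a m ha
  exact ⟨_, occ_big f q w m hm i hi, h1⟩

/-- positive upper density in every residue class -/
theorem pos_class (f : ℕ → ℝ) (q a : ℕ) (ha : a < q) {n : ℕ} (w : Fin n → Bool)
    (h : Pos fun m => Occurs f (big q w) m) : Pos fun m => Occurs f w m ∧ m % q = a := by
  classical
  obtain ⟨c, hc, h1⟩ := h
  have hq : 0 < q := by omega
  have hqr : (0 : ℝ) < q := by exact_mod_cast hq
  set L : ℕ := q * (1 + q * n) with hL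
  refine ⟨c / (q * (1 + L)), by positivity, ?_⟩
  rw [frequently_atTop] at h1 ⊢
  intro N0
  obtain ⟨N, hN, h2⟩ := h1 (N0 + 1)
  refine ⟨N + L, by omega, ?_⟩
  choose i hi1 hi2 using fun m => exists_shift q n a m ha
  have h3 : ((range N).filter fun m => Occurs f (big q w) m).card ≤
      (((range (N + L)).filter fun m => Occurs f w m ∧ m % q = a) ×ˢ (range q)).card := by
    refine Finset.card_le_card_of_injOn (fun m => (m + i m * (1 + q * n), i m)) ?_ ?_
    · intro m hm
      rw [mem_coe, mem_filter, mem_range] at hm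
      rw [mem_coe, mem_product, mem_filter, mem_range, mem_range]
      refine ⟨⟨?_, occ_big f q w m hm.2 _ (hi1 m), hi2 m⟩, hi1 m⟩
      have h4 : i m * (1 + q * n) ≤ q * (1 + q * n) := Nat.mul_le_mul_right _ (hi1 m).le
      simp only
      omega
    · intro m _ m' _ he
      simp only [Prod.mk.injEq] at he
      obtain ⟨h4, h5⟩ := he
      rw [h5] at h4
      omega
  rw [card_product, card_range] at h3
  have h4 : (((range N).filter fun m => Occurs f (big q w) m).card : ℝ) ≤
      (((range (N + L)).filter fun m => Occurs f w m ∧ m % q = a).card : ℝ) * q := by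
    exact_mod_cast h3
  have hN1 : (1 : ℝ) ≤ N := by exact_mod_cast (by omega : 1 ≤ N)
  have hL0 : (0 : ℝ) ≤ L := Nat.cast_nonneg _
  push_cast
  rw [div_mul_eq_mul_div, div_le_iff₀ (by positivity)]
  have h5 : (N : ℝ) + L ≤ (1 + L) * N := by nlinarith
  have h2' : c * N ≤ (((range N).filter fun m => Occurs f (big q w) m).card : ℝ) := by
    convert h2
  have h6 : c * ((N : ℝ) + L) ≤
      (((range (N + L)).filter fun m => Occurs f w m ∧ m % q = a).card : ℝ) * (q * (1 + L)) := by
    calc c * ((N : ℝ) + L) ≤ c * ((1 + L) * N) := mul_le_mul_of_nonneg_left h5 hc.le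
      _ = (1 + L) * (c * N) := by ring
      _ ≤ (1 + L) * ((((range (N + L)).filter fun m => Occurs f w m ∧ m % q = a).card : ℝ) * q) :=
          mul_le_mul_of_nonneg_left (h2'.trans h4) (by positivity)
      _ = _ := by ring
  refine h6.trans (le_of_eq ?_)
  congr

/-- two completely multiplicative functions agree at the integers all of whose prime factors have
the same values -/
lemma eq_of_primes (f f' : ℕ → ℝ) (h1 : f 1 = f' 1)
    (hm : ∀ a b, 1 ≤ a → 1 ≤ b → f (a * b) = f a * f b)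
    (hm' : ∀ a b, 1 ≤ a → 1 ≤ b → f' (a * b) = f' a * f' b) (y : ℕ) (hy : 1 ≤ y)
    (h : ∀ p : ℕ, p.Prime → p ∣ y → f p = f' p) : f y = f' y := by
  induction y using Nat.strong_induction_on with
  | _ y ih =>
    by_cases hy1 : y = 1
    · rw [hy1]
      exact h1
    · have hp := Nat.minFac_prime hy1
      obtain ⟨z, hz⟩ := Nat.minFac_dvd y
      have hz1 : 1 ≤ z := by
        rcases Nat.eq_zero_or_pos z with h0 | h0
        · rw [h0, mul_zero] at hz
          omega
        · exact h0
      have hzy : z < y := by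
        have h2 := hp.two_le
        have h3 : 2 * z ≤ y.minFac * z := Nat.mul_le_mul_right _ h2
        omega
      have h4 := ih z hzy hz1 fun p hp1 hp2 => h p hp1 (hz ▸ hp2.mul_left _)
      have h5 := h _ hp (Nat.minFac_dvd y)
      rw [hz, hm _ _ hp.one_lt.le hz1, hm' _ _ hp.one_lt.le hz1, h4, h5]

/-- **Finite changes.** -/
theorem finite_change (f f' : ℕ → ℝ) (hf : ∀ n, f n = 1 ∨ f n = -1) (hf' : ∀ n, f' n = 1 ∨ f' n = -1)
    (hm : ∀ a b, 1 ≤ a → 1 ≤ b → f (a * b) = f a * f b)
    (hm' : ∀ a b, 1 ≤ a → 1 ≤ b → f' (a * b) = f' a * f' b)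
    (hS : {p : ℕ | p.Prime ∧ f p ≠ f' p}.Finite)
    (h : ∀ n, ∀ w : Fin n → Bool, ∃ m, Occurs f w m) (n : ℕ) (w : Fin n → Bool) :
    ∃ m, Occurs f' w m := by
  classical
  set S := hS.toFinset with hSdef
  have hSp : ∀ p ∈ S, p.Prime := fun p hp => (hS.mem_toFinset.1 hp).1
  have one : ∀ F : ℕ → ℝ, (∀ n, F n = 1 ∨ F n = -1) →
      (∀ a b, 1 ≤ a → 1 ≤ b → F (a * b) = F a * F b) → F 1 = 1 := by
    intro F hF hFm
    have h1 := hFm 1 1 le_rfl le_rfl
    rw [mul_one] at h1
    rcases hF 1 with h2 | h2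
    · exact h2
    · rw [h2] at h1
      norm_num at h1
  set V := ∏ p ∈ S, p with hV
  have hV0 : 0 < V := Finset.prod_pos fun p hp => (hSp p hp).pos
  have hq : 0 < n.factorial * V := Nat.mul_pos (Nat.factorial_pos n) hV0
  -- the pattern for f
  set w' : Fin n → Bool := fun j => decide
    ((if w j = true then (1 : ℝ) else -1) * (f (j + 1) * f' (j + 1)) = 1) with hw'
  obtain ⟨m, hmo, hm0⟩ := occ_class f h n w' (n.factorial * V) 0 hq
  refine ⟨m, fun j => ?_⟩
  have hdiv : n.factorial * V ∣ m := Nat.dvd_of_mod_eq_zero hm0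
  have hjd : (j : ℕ) + 1 ∣ n.factorial := Nat.dvd_factorial (by omega) j.2
  obtain ⟨a, ha⟩ := hjd
  obtain ⟨b, hb⟩ := hdiv
  -- m + j + 1 = (j + 1) * y
  have hy : m + j + 1 = (j + 1) * (a * V * b + 1) := by
    rw [hb, ha]
    ring
  have hyeq : f (a * V * b + 1) = f' (a * V * b + 1) := by
    refine eq_of_primes f f' ((one f hf hm).trans (one f' hf' hm').symm) hm hm' _ (by omega) ?_
    intro p hp hpy
    by_contra hne
    have hpS : p ∈ S := hS.mem_toFinset.2 ⟨hp, hne⟩
    have h1 : p ∣ a * V * b := ((Finset.dvd_prod_of_mem (fun p => p) hpS).mul_left a).mul_right b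
    have h2 : p ∣ 1 := (Nat.dvd_add_right h1).1 hpy
    exact hp.one_lt.ne' (Nat.dvd_one.1 h2)
  have h1 := hmo j
  rw [hy, hm _ _ (by omega) (by omega), hyeq] at h1
  rw [hy, hm' _ _ (by omega) (by omega)]
  rw [hw'] at h1
  simp only [decide_eq_true_eq] at h1
  rcases hf (j + 1) with h2 | h2 <;> rcases hf' (j + 1) with h3 | h3 <;>
    rcases hf' (a * V * b + 1) with h4 | h4 <;> rw [h2, h3, h4] at h1 <;> rw [h3, h4] <;>
    by_cases hwj : w j = true <;> simp only [hwj] at h1 ⊢ <;>
    first | (norm_num; done) | (norm_num at h1; done)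

end Pool.Agent.Q163.BC
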